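import Pool.Agent.Nevan.Defs

/-!
# Holomorphic curves in charts
-/

set_option linter.unusedSectionVars false

open scoped Manifold ContDiff Topology
open Set Metric Filter

namespace Pool.Agent.Nevan

variable {E : Type*} [NormedAddCommGroup E] [NormedSpace ℂ E]
  {M : Type*} [TopologicalSpace M] [ChartedSpace E M] [IsManifold 𝓘(ℂ, E) ω M]

lemma mdiff_of_mem {e : OpenPartialHomeomorph M E} (he : e ∈ holCharts E M) :
    e.MDifferentiable 𝓘(ℂ, E) 𝓘(ℂ, E) := by
  have he1 : e ∈ IsManifold.maximalAtlas 𝓘(ℂ, E) 1 M :=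
    IsManifold.maximalAtlas_subset_of_le (by exact le_top) he
  exact ⟨fun x hx => (mdifferentiableAt_of_mem_maximalAtlas he1 hx).mdifferentiableWithinAt,
    fun x hx => (mdifferentiableAt_symm_of_mem_maximalAtlas he1 hx).mdifferentiableWithinAt⟩

/-- The derivative of a holomorphic curve, read in a chart. -/
lemma hasDerivAt_chart {e : OpenPartialHomeomorph M E} (he : e ∈ holCharts E M) {φ : ℂ → M} {z : ℂ}
    (hφ : HolAt (E := E) φ z) (hz : φ z ∈ e.source) :
    HasDerivAt (fun w => e (φ w)) (velocity e φ z) z := by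
  have h1 : MDifferentiableAt 𝓘(ℂ, E) 𝓘(ℂ, E) e (φ z) :=
    (mdiff_of_mem he).mdifferentiableAt hz
  have h2 : MDifferentiableAt 𝓘(ℂ, ℂ) 𝓘(ℂ, E) (e ∘ φ) z := h1.comp z hφ
  have h3 : DifferentiableAt ℂ (e ∘ φ) z := mdifferentiableAt_iff_differentiableAt.mp h2
  exact h3.hasDerivAt

/-- A holomorphic curve in the target of a chart gives a holomorphic curve in `M`. -/
lemma holAt_symm_comp {e : OpenPartialHomeomorph M E} (he : e ∈ holCharts E M) {c : ℂ → E} {c' : E}
    {z : ℂ} (hc : HasDerivAt c c' z) (hz : c z ∈ e.target) :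
    HolAt (E := E) (fun w => e.symm (c w)) z := by
  have h1 : MDifferentiableAt 𝓘(ℂ, E) 𝓘(ℂ, E) e.symm (c z) :=
    (mdiff_of_mem he).mdifferentiableAt_symm hz
  have h2 : MDifferentiableAt 𝓘(ℂ, ℂ) 𝓘(ℂ, E) c z :=
    mdifferentiableAt_iff_differentiableAt.mpr hc.differentiableAt
  exact h1.comp z h2

lemma velocity_symm {e : OpenPartialHomeomorph M E} {c : ℂ → E} {c' : E} {z : ℂ}
    (hc : HasDerivAt c c' z) (hz : c z ∈ e.target) :
    velocity e (fun w => e.symm (c w)) z = c' := by
  have h3 : (fun w => e (e.symm (c w))) =ᶠ[𝓝 z] c := by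
    filter_upwards [hc.continuousAt.preimage_mem_nhds (e.open_target.mem_nhds hz)] with w hw
    exact e.right_inv hw
  exact (hc.congr_of_eventuallyEq h3).deriv

/-! ### Changes of charts -/

lemma differentiableAt_change {e e' : OpenPartialHomeomorph M E} (he : e ∈ holCharts E M)
    (he' : e' ∈ holCharts E M) {y : M} (hy : y ∈ e.source) (hy' : y ∈ e'.source) :
    DifferentiableAt ℂ (fun z => e' (e.symm z)) (e y) := by
  have h1 : MDifferentiableAt 𝓘(ℂ, E) 𝓘(ℂ, E) e.symm (e y) :=
    (mdiff_of_mem he).mdifferentiableAt_symm (e.map_source hy)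
  have h2 : MDifferentiableAt 𝓘(ℂ, E) 𝓘(ℂ, E) e' (e.symm (e y)) :=
    (mdiff_of_mem he').mdifferentiableAt (by rw [e.left_inv hy]; exact hy')
  have h3 : MDifferentiableAt 𝓘(ℂ, E) 𝓘(ℂ, E) (e' ∘ e.symm) (e y) := h2.comp (e y) h1
  exact mdifferentiableAt_iff_differentiableAt.mp h3

lemma change_smul (e e' : OpenPartialHomeomorph M E) (y : M) (c : ℂ) (u : E) :
    change e e' y (c • u) = c • change e e' y u := by
  unfold change
  rw [map_smul]

lemma velocity_change {e e' : OpenPartialHomeomorph M E} (he : e ∈ holCharts E M)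
    (he' : e' ∈ holCharts E M) {φ : ℂ → M} {z : ℂ} (hφ : HolAt (E := E) φ z)
    (hz : φ z ∈ e.source) (hz' : φ z ∈ e'.source) :
    velocity e' φ z = change e e' (φ z) (velocity e φ z) := by
  have h1 := hasDerivAt_chart he hφ hz
  have h2 : HasFDerivAt (fun z => e' (e.symm z)) (fderiv ℂ (fun z => e' (e.symm z)) (e (φ z)))
      ((fun w => e (φ w)) z) := (differentiableAt_change he he' hz hz').hasFDerivAt
  have h3' := HasFDerivAt.comp_hasDerivAt z h2 h1
  have h3 : HasDerivAt (fun w => e' (e.symm (e (φ w)))) (change e e' (φ z) (velocity e φ z)) z :=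
    h3'
  have h4 : (fun w => e' (e.symm (e (φ w)))) =ᶠ[𝓝 z] fun w => e' (φ w) := by
    have hc : ContinuousAt φ z := MDifferentiableAt.continuousAt hφ
    filter_upwards [hc.preimage_mem_nhds (e.open_source.mem_nhds hz)] with w hw
    rw [e.left_inv hw]
  exact (h3.congr_of_eventuallyEq h4.symm).deriv

/-! ### The metric in a chart -/

namespace PositiveForm

variable (Ω : PositiveForm E M)

/-- the squared length of a tangent vector with components `u` in the chart `e` -/
noncomputable def sq (e : OpenPartialHomeomorph M E) (y : M) (u : E) : ℝ :=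
  Ω.form e y u (Complex.I • u)

section

variable {e : OpenPartialHomeomorph M E} (he : e ∈ holCharts E M) {y : M} (hy : y ∈ e.source)
include he hy

lemma form_self (u : E) : Ω.form e y u u = 0 := by
  have := Ω.alternating e he y hy u u
  linarith

lemma add_right (u v w : E) :
    Ω.form e y u (v + w) = Ω.form e y u v + Ω.form e y u w := by
  rw [Ω.alternating e he y hy, Ω.add_left e he y hy, Ω.alternating e he y hy v,
    Ω.alternating e he y hy w]
  ring

lemma smul_right (r : ℝ) (u v : E) :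
    Ω.form e y u ((r : ℂ) • v) = r * Ω.form e y u v := by
  rw [Ω.alternating e he y hy, Ω.smul_left e he y hy, Ω.alternating e he y hy v]
  ring

lemma sq_smul (c : ℂ) (u : E) : Ω.sq e y (c • u) = ‖c‖ ^ 2 * Ω.sq e y u := by
  unfold sq
  have e1 : c • u = (c.re : ℂ) • u + (c.im : ℂ) • (Complex.I • u) := by
    rw [smul_smul, ← add_smul]
    congr 1
    exact (Complex.re_add_im c).symm
  have e2 : Complex.I • (c • u) = (c.re : ℂ) • (Complex.I • u) + ((-c.im : ℝ) : ℂ) • u := by
    rw [smul_smul, smul_smul, ← add_smul]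
    congr 1
    conv_lhs => rw [← Complex.re_add_im c]
    push_cast
    linear_combination (c.im : ℂ) * Complex.I_mul_I
  rw [e2, e1, Ω.add_left e he y hy, Ω.add_right he hy, Ω.add_right he hy,
    Ω.smul_left e he y hy, Ω.smul_left e he y hy, Ω.smul_left e he y hy,
    Ω.smul_left e he y hy, Ω.smul_right he hy, Ω.smul_right he hy, Ω.smul_right he hy,
    Ω.smul_right he hy, Ω.form_self he hy, Ω.form_self he hy]
  have e3 : Ω.form e y (Complex.I • u) u = - Ω.form e y u (Complex.I • u) :=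
    Ω.alternating e he y hy _ _
  rw [e3, ← Complex.normSq_eq_norm_sq, Complex.normSq_apply]
  ring

lemma sq_zero : Ω.sq e y 0 = 0 := by
  have h := Ω.sq_smul he hy 0 (0 : E)
  rw [zero_smul] at h
  rw [h]
  simp

lemma sq_nonneg (u : E) : 0 ≤ Ω.sq e y u := by
  by_cases hu : u = 0
  · rw [hu, Ω.sq_zero he hy]
  · exact (Ω.pos e he y hy u hu).le

end

/-- `φ^*Ω`, computed in any chart. -/
lemma pullback_eq {e : OpenPartialHomeomorph M E} (he : e ∈ holCharts E M) {φ : ℂ → M} {z : ℂ}
    (hφ : HolAt (E := E) φ z) (hz : φ z ∈ e.source) :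
    Ω.pullback φ z = Ω.sq e (φ z) (velocity e φ z) := by
  have h0 : chartAt E (φ z) ∈ holCharts E M := IsManifold.chart_mem_maximalAtlas (φ z)
  have h1 : φ z ∈ (chartAt E (φ z)).source := mem_chart_source E (φ z)
  rw [velocity_change h0 he hφ h1 hz]
  unfold sq pullback
  rw [← change_smul]
  exact (Ω.change_eq _ h0 e he (φ z) h1 hz _ _).symm

lemma pullback_nonneg (φ : ℂ → M) (z : ℂ) : 0 ≤ Ω.pullback φ z :=
  Ω.sq_nonneg (IsManifold.chart_mem_maximalAtlas (φ z)) (mem_chart_source E (φ z)) _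

/-- On compact subsets of a chart the metric is bounded below. -/
lemma exists_lower_bound [FiniteDimensional ℂ E] {e : OpenPartialHomeomorph M E}
    (he : e ∈ holCharts E M) {K : Set E} (hK : IsCompact K) (hKt : K ⊆ e.target) :
    ∃ m : ℝ, 0 < m ∧ ∀ x ∈ e.source, e x ∈ K → ∀ u : E, m * ‖u‖ ^ 2 ≤ Ω.sq e x u := by
  have hprop : ProperSpace E := FiniteDimensional.proper ℂ E
  have hc : ContinuousOn (fun p : E × E => Ω.sq e (e.symm p.1) p.2) (K ×ˢ sphere (0 : E) 1) := by
    have h1 : ContinuousOn (fun p : E × E => (e.symm p.1, p.2)) (K ×ˢ sphere (0 : E) 1) := by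
      refine ContinuousOn.prodMk ?_ continuous_snd.continuousOn
      exact (e.continuousOn_symm.mono hKt).comp continuous_fst.continuousOn fun p hp => hp.1
    exact (Ω.continuousOn e he).comp h1 fun p hp => ⟨e.map_target (hKt hp.1), mem_univ _⟩
  have hcomp : IsCompact (K ×ˢ sphere (0 : E) 1) := hK.prod (isCompact_sphere 0 1)
  obtain ⟨m, hm, hmin⟩ : ∃ m : ℝ, 0 < m ∧ ∀ p ∈ K ×ˢ sphere (0 : E) 1,
      m ≤ Ω.sq e (e.symm p.1) p.2 := by
    rcases (K ×ˢ sphere (0 : E) 1).eq_empty_or_nonempty with h0 | h0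
    · exact ⟨1, one_pos, fun p hp => by rw [h0] at hp; exact absurd hp (notMem_empty p)⟩
    · obtain ⟨p0, hp0, hp0min⟩ := hcomp.exists_isMinOn h0 hc
      refine ⟨Ω.sq e (e.symm p0.1) p0.2, ?_, fun p hp => hp0min hp⟩
      apply Ω.pos e he _ (e.map_target (hKt hp0.1))
      intro h
      have h1 : ‖p0.2‖ = 1 := mem_sphere_zero_iff_norm.mp hp0.2
      rw [h] at h1
      simp at h1
  refine ⟨m, hm, fun x hx hxK u => ?_⟩
  by_cases hu0 : u = 0
  · rw [hu0, Ω.sq_zero he hx]
    simp
  · have hn : ‖u‖ ≠ 0 := norm_ne_zero_iff.mpr hu0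
    have h1 : u = (‖u‖ : ℂ) • ((‖u‖ : ℂ)⁻¹ • u) := by
      rw [smul_smul, mul_inv_cancel₀ (by exact_mod_cast hn), one_smul]
    have h2 : (e x, (‖u‖ : ℂ)⁻¹ • u) ∈ K ×ˢ sphere (0 : E) 1 := by
      refine ⟨hxK, ?_⟩
      rw [mem_sphere_zero_iff_norm, norm_smul, norm_inv, Complex.norm_real, norm_norm,
        inv_mul_cancel₀ hn]
    have h3 := hmin _ h2
    simp only [e.left_inv hx] at h3
    have h4 : Ω.sq e x u = ‖u‖ ^ 2 * Ω.sq e x ((‖u‖ : ℂ)⁻¹ • u) := by
      conv_lhs => rw [h1]
      rw [Ω.sq_smul he hx, Complex.norm_real, norm_norm]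
    rw [h4]
    nlinarith [_root_.sq_nonneg ‖u‖]

/-- The density `z ↦ φ^*Ω` of a holomorphic curve is continuous. -/
lemma continuousOn_pullback [CompleteSpace E] {φ : ℂ → M}
    (hφ : ∀ z ∈ ball (0 : ℂ) 1, HolAt (E := E) φ z) :
    ContinuousOn (Ω.pullback φ) (ball 0 1) := by
  intro z hz
  set e := chartAt E (φ z) with he_def
  have he : e ∈ holCharts E M := IsManifold.chart_mem_maximalAtlas _
  have hze : φ z ∈ e.source := mem_chart_source _ _
  have hcont : ContinuousAt φ z := MDifferentiableAt.continuousAt (hφ z hz)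
  have hn1 : ∀ᶠ w in 𝓝 z, w ∈ ball (0 : ℂ) 1 := isOpen_ball.mem_nhds hz
  have hn2 : ∀ᶠ w in 𝓝 z, φ w ∈ e.source :=
    hcont.preimage_mem_nhds (e.open_source.mem_nhds hze)
  have hnear := hn1.and hn2
  have hdiff : ∀ᶠ w in 𝓝 z, DifferentiableAt ℂ (fun w => e (φ w)) w := by
    filter_upwards [hnear] with w hw
    exact (hasDerivAt_chart he (hφ w hw.1) hw.2).differentiableAt
  have han : AnalyticAt ℂ (fun w => e (φ w)) z :=
    Complex.analyticAt_iff_eventually_differentiableAt.mpr hdiff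
  have hdc : ContinuousAt (fun w => velocity e φ w) z := han.deriv.continuousAt
  have hpair : ContinuousAt (fun w => (φ w, velocity e φ w)) z := hcont.prodMk hdc
  have hC : ContinuousAt (fun p : M × E => Ω.form e p.1 p.2 (Complex.I • p.2))
      (φ z, velocity e φ z) := by
    refine (Ω.continuousOn e he).continuousAt ?_
    exact (e.open_source.prod isOpen_univ).mem_nhds ⟨hze, mem_univ _⟩
  have hcomp : ContinuousAt (fun w => Ω.sq e (φ w) (velocity e φ w)) z :=
    ContinuousAt.comp (f := fun w => (φ w, velocity e φ w)) hC hpair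
  have heq : (fun w => Ω.sq e (φ w) (velocity e φ w)) =ᶠ[𝓝 z] Ω.pullback φ := by
    filter_upwards [hnear] with w hw
    exact (Ω.pullback_eq he (hφ w hw.1) hw.2).symm
  exact (hcomp.congr heq).continuousWithinAt

end PositiveForm

end Pool.Agent.Nevan
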