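import Mathlib

/-!
# Singular holomorphic foliations by curves, their leaves, and the Nevanlinna characteristic

Definitions for the problem MP_39ecfc_an. Complex manifolds are modelled on a finite-dimensional
complex vector space `E`, such as `ℂ^k`. Tangent vectors, line fields and forms on `M` are given
by their components in the holomorphic charts of `M`, with the usual transformation rules.
-/

open scoped Manifold ContDiff Topology
open Set Metric

namespace Pool.Agent.Nevan

/-- The holomorphic charts of the complex manifold `M`: its maximal holomorphic atlas. -/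
def holCharts (E : Type*) [NormedAddCommGroup E] [NormedSpace ℂ E] (M : Type*)
    [TopologicalSpace M] [ChartedSpace E M] : Set (OpenPartialHomeomorph M E) :=
  IsManifold.maximalAtlas 𝓘(ℂ, E) ω M

section

variable {E : Type*} [NormedAddCommGroup E] [NormedSpace ℂ E]
  {M : Type*} [TopologicalSpace M] [ChartedSpace E M]

/-- `φ : ℂ → M` is complex differentiable at `z`. -/
def HolAt (φ : ℂ → M) (z : ℂ) : Prop := MDifferentiableAt 𝓘(ℂ, ℂ) 𝓘(ℂ, E) φ z

/-- The velocity at the parameter `z` of the curve `φ : ℂ → M`, read in the chart `e`. -/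
noncomputable def velocity (e : OpenPartialHomeomorph M E) (φ : ℂ → M) (z : ℂ) : E :=
  deriv (fun w => e (φ w)) z

/-- The differential `d(e' ∘ e⁻¹)` at `e(y)`, which carries the components in the chart `e` of a
tangent vector at `y` to its components in the chart `e'`. -/
noncomputable def change (e e' : OpenPartialHomeomorph M E) (y : M) (u : E) : E :=
  fderiv ℂ (fun z => e' (e.symm z)) (e y) u

end

/-- A (possibly singular) holomorphic foliation by curves of the complex manifold `M`:
a closed set `sing` and a field of complex lines on `M \ sing`. The tangent line at `y` is given by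
its components `dir e y ⊆ E` in the holomorphic charts `e` at `y`. Around every `x ∉ sing` there is
a foliated chart: a holomorphic chart whose domain avoids `sing` and in which the lines are all
parallel to one fixed nonzero vector `v`. -/
structure Foliation (E : Type*) [NormedAddCommGroup E] [NormedSpace ℂ E] (M : Type*)
    [TopologicalSpace M] [ChartedSpace E M] where
  sing : Set M
  dir : OpenPartialHomeomorph M E → M → Submodule ℂ E
  isClosed_sing : IsClosed sing
  change_mem : ∀ e ∈ holCharts E M, ∀ e' ∈ holCharts E M, ∀ y ∈ e.source, y ∈ e'.source →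
    ∀ u ∈ dir e y, change e e' y u ∈ dir e' y
  foliated : ∀ x ∉ sing, ∃ e ∈ holCharts E M, x ∈ e.source ∧ ∃ v : E, v ≠ 0 ∧
    ∀ y ∈ e.source, y ∉ sing ∧ dir e y = Submodule.span ℂ {v}

/-- A continuous positive `(1,1)`-form on `M`, i.e. a continuous Hermitian metric:
`form e y u v` is the value at the point `y` on the pair of tangent vectors with components `u`, `v`
in the holomorphic chart `e`. It is real bilinear and alternating in `u`, `v`, invariant under
multiplication by `i`, positive on `(u, i u)` for `u ≠ 0`, continuous, and independent of the chart.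
A Kähler form is such a form which moreover is smooth and closed. -/
structure PositiveForm (E : Type*) [NormedAddCommGroup E] [NormedSpace ℂ E] (M : Type*)
    [TopologicalSpace M] [ChartedSpace E M] where
  form : OpenPartialHomeomorph M E → M → E → E → ℝ
  add_left : ∀ e ∈ holCharts E M, ∀ y ∈ e.source, ∀ u v w : E,
    form e y (u + v) w = form e y u w + form e y v w
  smul_left : ∀ e ∈ holCharts E M, ∀ y ∈ e.source, ∀ (r : ℝ) (u v : E),
    form e y ((r : ℂ) • u) v = r * form e y u v
  alternating : ∀ e ∈ holCharts E M, ∀ y ∈ e.source, ∀ u v : E, form e y u v = - form e y v u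
  map_I_smul : ∀ e ∈ holCharts E M, ∀ y ∈ e.source, ∀ u v : E,
    form e y (Complex.I • u) (Complex.I • v) = form e y u v
  pos : ∀ e ∈ holCharts E M, ∀ y ∈ e.source, ∀ u : E, u ≠ 0 → 0 < form e y u (Complex.I • u)
  continuousOn : ∀ e ∈ holCharts E M,
    ContinuousOn (fun p : M × E => form e p.1 p.2 (Complex.I • p.2)) (e.source ×ˢ univ)
  change_eq : ∀ e ∈ holCharts E M, ∀ e' ∈ holCharts E M, ∀ y ∈ e.source, y ∈ e'.source →
    ∀ u v : E, form e' y (change e e' y u) (change e e' y v) = form e y u v

variable {E : Type*} [NormedAddCommGroup E] [NormedSpace ℂ E]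
  {M : Type*} [TopologicalSpace M] [ChartedSpace E M]

/-- The point `p` is a linearizable singularity of `F`: in some holomorphic chart `e` centred at
`p` the foliation is, away from `p`, the one generated by the linear vector field `z ↦ A z`, with
`A` an invertible linear map of `E` (for instance `A = diag(λ_1, …, λ_k)`, all `λ_j ≠ 0`). -/
def Foliation.IsLinearizableAt (F : Foliation E M) (p : M) : Prop :=
  ∃ e ∈ holCharts E M, p ∈ e.source ∧ e p = 0 ∧ ∃ A : E ≃ₗ[ℂ] E,
    ∀ y ∈ e.source, y ≠ p → y ∉ F.sing ∧ F.dir e y = Submodule.span ℂ {A (e y)}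

/-- `ψ` is, on the unit disc `𝔻 = ball 0 1`, a holomorphic map into `M \ Sing(F)` tangent to
`F`. (Its values outside the unit disc are irrelevant.) -/
def Foliation.IsTangentDisc (F : Foliation E M) (ψ : ℂ → M) : Prop :=
  ∀ z ∈ ball (0 : ℂ) 1, HolAt (E := E) ψ z ∧ ψ z ∉ F.sing ∧
    ∀ e ∈ holCharts E M, ψ z ∈ e.source → velocity e ψ z ∈ F.dir e (ψ z)

/-- The set `M`, to be endowed with the leaf topology of `F`. -/
def Foliation.LeafSpace (_F : Foliation E M) : Type _ := M

/-- The leaf topology: the finest topology for which all holomorphic discs tangent to `F` are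
continuous. Its open sets in `M \ Sing(F)` are the unions of open subsets of plaques. -/
noncomputable instance (F : Foliation E M) : TopologicalSpace F.LeafSpace :=
  ⨆ ψ : {ψ : ℂ → M // F.IsTangentDisc ψ},
    TopologicalSpace.coinduced (fun z : ball (0 : ℂ) 1 => (ψ.1 z : M)) inferInstance

/-- The leaf of `F` through the point `a`: the connected component of `a` in the leaf topology. -/
def Foliation.leaf (F : Foliation E M) (a : M) : Set F.LeafSpace :=
  connectedComponent (show F.LeafSpace from a)

/-- `φ`, restricted to the unit disc `𝔻`, is a holomorphic universal covering map `𝔻 → L` of the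
leaf `L` of `F` through `a`, with `φ(0) = a`. In particular that leaf is hyperbolic. -/
structure Foliation.IsUniversalCovering (F : Foliation E M) (a : M) (φ : ℂ → M) : Prop where
  map_zero : φ 0 = a
  tangent : F.IsTangentDisc φ
  immersion : ∀ z ∈ ball (0 : ℂ) 1, ∀ e ∈ holCharts E M, φ z ∈ e.source → velocity e φ z ≠ 0
  covering : ∃ h : ∀ z : ball (0 : ℂ) 1, (show F.LeafSpace from φ z) ∈ F.leaf a,
    IsCoveringMap fun z : ball (0 : ℂ) 1 => (⟨φ z, h z⟩ : F.leaf a)

/-- The density of `φ^*Ω` with respect to Lebesgue measure: `φ^*Ω = Ω(φ', i φ') dx ∧ dy`, computed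
in Mathlib's preferred chart at `φ(z)`. -/
noncomputable def PositiveForm.pullback (Ω : PositiveForm E M) (φ : ℂ → M) (z : ℂ) : ℝ :=
  Ω.form (chartAt E (φ z)) (φ z) (velocity (chartAt E (φ z)) φ z)
    (Complex.I • velocity (chartAt E (φ z)) φ z)

/-- The Nevanlinna characteristic `T(r) = ∫_0^r (dt/t) ∫_{𝔻(t)} φ^*Ω`. -/
noncomputable def PositiveForm.nevanlinna (Ω : PositiveForm E M) (φ : ℂ → M) (r : ℝ) : ℝ :=
  ∫ t in (0 : ℝ)..r, (1 / t) * ∫ z in ball (0 : ℂ) t, Ω.pullback φ z

end Pool.Agent.Nevan
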