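import Mathlib

/-!
# A Jensen-type inequality for `C²` functions on the disc
-/

open MeasureTheory Set Metric Complex
open scoped Real Topology

namespace Pool.Agent.Nevan

/-- The point `s e^{iθ}`. -/
noncomputable def pt (s θ : ℝ) : ℂ := (s : ℂ) * Complex.exp (θ * I)

lemma norm_exp_mul_I (θ : ℝ) : ‖Complex.exp (θ * I)‖ = 1 := Complex.norm_exp_ofReal_mul_I θ

lemma norm_pt (s θ : ℝ) : ‖pt s θ‖ = |s| := by
  unfold pt
  rw [norm_mul, norm_exp_mul_I, mul_one, Complex.norm_real, Real.norm_eq_abs]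

lemma continuous_pt : Continuous fun p : ℝ × ℝ => pt p.1 p.2 := by
  unfold pt
  fun_prop

lemma pt_mem_ball {s θ t : ℝ} (hs : |s| < t) : pt s θ ∈ ball (0 : ℂ) t := by
  rw [mem_ball_zero_iff, norm_pt]; exact hs

/-- Integrals over discs in polar coordinates. -/
lemma integral_ball_polar {n : ℂ → ℝ} {t : ℝ} (ht : 0 ≤ t)
    (hn : ContinuousOn n (closedBall 0 t)) :
    ∫ z in ball (0 : ℂ) t, n z = ∫ s in (0 : ℝ)..t, ∫ θ in (-π)..π, s * n (pt s θ) := by
  have hcont : ContinuousOn (fun p : ℝ × ℝ => p.1 * n (pt p.1 p.2)) (Icc 0 t ×ˢ Icc (-π) π) := by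
    refine continuous_fst.continuousOn.mul (hn.comp continuous_pt.continuousOn ?_)
    rintro ⟨s, θ⟩ ⟨hs, _⟩
    rw [mem_closedBall_zero_iff, norm_pt, abs_of_nonneg hs.1]
    exact hs.2
  have hint : IntegrableOn (fun p : ℝ × ℝ => p.1 * n (pt p.1 p.2)) (Icc 0 t ×ˢ Icc (-π) π) :=
    hcont.integrableOn_compact (isCompact_Icc.prod isCompact_Icc)
  have hint' : IntegrableOn (fun p : ℝ × ℝ => p.1 * n (pt p.1 p.2)) (Ioo 0 t ×ˢ Ioo (-π) π)
      (volume.prod volume) :=
    hint.mono_set (prod_mono Ioo_subset_Icc_self Ioo_subset_Icc_self)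
  calc ∫ z in ball (0 : ℂ) t, n z = ∫ z, (ball (0 : ℂ) t).indicator n z :=
        (integral_indicator measurableSet_ball).symm
    _ = ∫ p in polarCoord.target, p.1 • (ball (0 : ℂ) t).indicator n (Complex.polarCoord.symm p) :=
        (Complex.integral_comp_polarCoord_symm _).symm
    _ = ∫ p in polarCoord.target,
          (Ioo 0 t ×ˢ Ioo (-π) π).indicator (fun p : ℝ × ℝ => p.1 * n (pt p.1 p.2)) p := by
        refine setIntegral_congr_fun polarCoord.open_target.measurableSet ?_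
        rintro ⟨s, θ⟩ ⟨hs, hθ⟩
        have hs' : (0 : ℝ) < s := hs
        have e1 : Complex.polarCoord.symm (s, θ) = pt s θ := by
          rw [Complex.polarCoord_symm_apply]
          unfold pt
          rw [Complex.exp_mul_I]
          push_cast
          ring
        simp only [e1, smul_eq_mul]
        by_cases hst : s < t
        · have h1 : pt s θ ∈ ball (0 : ℂ) t := pt_mem_ball (by rwa [abs_of_pos hs'])
          have h2 : (s, θ) ∈ Ioo 0 t ×ˢ Ioo (-π) π := ⟨⟨hs', hst⟩, hθ⟩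
          rw [indicator_of_mem h1, indicator_of_mem h2]
        · have h1 : pt s θ ∉ ball (0 : ℂ) t := by
            rw [mem_ball_zero_iff, norm_pt, abs_of_pos hs']; exact hst
          have h2 : (s, θ) ∉ Ioo 0 t ×ˢ Ioo (-π) π := fun h => hst h.1.2
          rw [indicator_of_notMem h1, indicator_of_notMem h2, mul_zero]
    _ = ∫ p in Ioo 0 t ×ˢ Ioo (-π) π, p.1 * n (pt p.1 p.2) := by
        rw [setIntegral_indicator (measurableSet_Ioo.prod measurableSet_Ioo)]
        congr 2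
        rw [inter_eq_right]
        rintro ⟨s, θ⟩ ⟨hs, hθ⟩
        exact ⟨hs.1, hθ⟩
    _ = ∫ s in Ioo 0 t, ∫ θ in Ioo (-π) π, s * n (pt s θ) := by
        rw [Measure.volume_eq_prod]
        exact setIntegral_prod _ hint'
    _ = _ := by
        rw [intervalIntegral.integral_of_le ht, integral_Ioc_eq_integral_Ioo]
        congr 1
        funext s
        rw [intervalIntegral.integral_of_le (by linarith [Real.pi_pos]),
          integral_Ioc_eq_integral_Ioo]

/-- The Laplacian of a function on `ℂ`. -/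
noncomputable def lap (G : ℂ → ℝ) (z : ℂ) : ℝ :=
  fderiv ℝ (fderiv ℝ G) z 1 1 + fderiv ℝ (fderiv ℝ G) z I I

lemma bilin_rot (B : ℂ →L[ℝ] ℂ →L[ℝ] ℝ) (θ : ℝ) :
    B (Complex.exp (θ * I)) (Complex.exp (θ * I)) +
      B (I * Complex.exp (θ * I)) (I * Complex.exp (θ * I)) = B 1 1 + B I I := by
  have e1 : Complex.exp (θ * I) = Real.cos θ • (1 : ℂ) + Real.sin θ • I := by
    rw [Complex.exp_mul_I]
    simp only [Complex.real_smul]
    push_cast
    ring
  have e2 : I * Complex.exp (θ * I) = (-Real.sin θ) • (1 : ℂ) + Real.cos θ • I := by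
    rw [Complex.exp_mul_I]
    simp only [Complex.real_smul]
    push_cast
    have := Complex.I_mul_I
    linear_combination (Complex.sin θ) * this
  rw [e2, e1]
  simp only [map_add, map_smul, add_apply, smul_apply,
    smul_eq_mul]
  have h := Real.sin_sq_add_cos_sq θ
  linear_combination (B 1 1 + B I I) * h

section

variable {G : ℂ → ℝ} (hG : ContDiffOn ℝ 2 G (ball 0 1))

include hG

lemma contDiffAt_of_ball {z : ℂ} (hz : z ∈ ball (0 : ℂ) 1) : ContDiffAt ℝ 2 G z :=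
  hG.contDiffAt (isOpen_ball.mem_nhds hz)

lemma contDiffOn_fderiv : ContDiffOn ℝ 1 (fderiv ℝ G) (ball 0 1) :=
  hG.fderiv_of_isOpen isOpen_ball (by norm_num)

lemma continuousOn_fderiv_fderiv : ContinuousOn (fderiv ℝ (fderiv ℝ G)) (ball 0 1) := by
  have h := contDiffOn_fderiv hG
  exact h.continuousOn_fderiv_of_isOpen isOpen_ball le_rfl

lemma hasFDerivAt_fderiv {z : ℂ} (hz : z ∈ ball (0 : ℂ) 1) :
    HasFDerivAt (fderiv ℝ G) (fderiv ℝ (fderiv ℝ G) z) z := by
  have h := (contDiffOn_fderiv hG).contDiffAt (isOpen_ball.mem_nhds hz)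
  exact (h.differentiableAt (by norm_num)).hasFDerivAt

lemma hasFDerivAt_G {z : ℂ} (hz : z ∈ ball (0 : ℂ) 1) : HasFDerivAt G (fderiv ℝ G z) z :=
  ((contDiffAt_of_ball hG hz).differentiableAt (by norm_num)).hasFDerivAt

end

lemma hasDerivAt_pt_left (s θ : ℝ) : HasDerivAt (fun s => pt s θ) (Complex.exp (θ * I)) s := by
  unfold pt
  have h : HasDerivAt (fun s : ℝ => (s : ℂ)) 1 s := Complex.ofRealCLM.hasDerivAt
  simpa using h.mul_const (Complex.exp (θ * I))

lemma hasDerivAt_exp_right (θ : ℝ) :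
    HasDerivAt (fun θ : ℝ => Complex.exp (θ * I)) (I * Complex.exp (θ * I)) θ := by
  have h : HasDerivAt (fun s : ℝ => (s : ℂ) * I) (1 * I) θ :=
    (Complex.ofRealCLM.hasDerivAt (x := θ)).mul_const I
  have h2 := h.cexp
  convert h2 using 1
  ring

lemma hasDerivAt_pt_right (s θ : ℝ) :
    HasDerivAt (fun θ => pt s θ) ((s : ℂ) * (I * Complex.exp (θ * I))) θ := by
  unfold pt
  exact (hasDerivAt_exp_right θ).const_mul (s : ℂ)

section

variable {G : ℂ → ℝ} (hG : ContDiffOn ℝ 2 G (ball 0 1))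

include hG

/-- `∂_s G(s e^{iθ})`. -/
lemma hasDerivAt_radial {s θ : ℝ} (hs : |s| < 1) :
    HasDerivAt (fun s => G (pt s θ)) (fderiv ℝ G (pt s θ) (Complex.exp (θ * I))) s := by
  have h1 : HasFDerivAt G (fderiv ℝ G (pt s θ)) ((fun s => pt s θ) s) :=
    hasFDerivAt_G hG (pt_mem_ball hs)
  exact h1.comp_hasDerivAt s (hasDerivAt_pt_left s θ)

/-- `∂_s (s ∂_s G)`. -/
lemma hasDerivAt_radial2 {s θ : ℝ} (hs : |s| < 1) :
    HasDerivAt (fun s => s * fderiv ℝ G (pt s θ) (Complex.exp (θ * I)))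
      (fderiv ℝ G (pt s θ) (Complex.exp (θ * I)) +
        s * fderiv ℝ (fderiv ℝ G) (pt s θ) (Complex.exp (θ * I)) (Complex.exp (θ * I))) s := by
  have h0 : HasFDerivAt (fderiv ℝ G) (fderiv ℝ (fderiv ℝ G) (pt s θ)) ((fun s => pt s θ) s) :=
    hasFDerivAt_fderiv hG (pt_mem_ball hs)
  have h1 : HasDerivAt (fun s => fderiv ℝ G (pt s θ))
      (fderiv ℝ (fderiv ℝ G) (pt s θ) (Complex.exp (θ * I))) s :=
    h0.comp_hasDerivAt s (hasDerivAt_pt_left s θ)
  have h2 := h1.clm_apply (hasDerivAt_const s (Complex.exp (θ * I)))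
  have h3 := (hasDerivAt_id s).mul h2
  refine h3.congr_deriv ?_
  simp

/-- `∂_θ (DG(s e^{iθ}) (i e^{iθ}))`. -/
lemma hasDerivAt_angular {s θ : ℝ} (hs : |s| < 1) :
    HasDerivAt (fun θ : ℝ => fderiv ℝ G (pt s θ) (I * Complex.exp (θ * I)))
      (s * fderiv ℝ (fderiv ℝ G) (pt s θ) (I * Complex.exp (θ * I)) (I * Complex.exp (θ * I))
        - fderiv ℝ G (pt s θ) (Complex.exp (θ * I))) θ := by
  have h0 : HasFDerivAt (fderiv ℝ G) (fderiv ℝ (fderiv ℝ G) (pt s θ)) ((fun θ => pt s θ) θ) :=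
    hasFDerivAt_fderiv hG (pt_mem_ball hs)
  have h1 : HasDerivAt (fun θ => fderiv ℝ G (pt s θ))
      (fderiv ℝ (fderiv ℝ G) (pt s θ) ((s : ℂ) * (I * Complex.exp (θ * I)))) θ :=
    h0.comp_hasDerivAt θ (hasDerivAt_pt_right s θ)
  have h2 : HasDerivAt (fun θ : ℝ => I * Complex.exp (θ * I))
      (I * (I * Complex.exp (θ * I))) θ := (hasDerivAt_exp_right θ).const_mul I
  have h3 := h1.clm_apply h2
  refine h3.congr_deriv ?_
  have e1 : (s : ℂ) * (I * Complex.exp (θ * I)) = s • (I * Complex.exp (θ * I)) := by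
    rw [Complex.real_smul]
  have e2 : I * (I * Complex.exp (θ * I)) = -Complex.exp (θ * I) := by
    rw [← mul_assoc, Complex.I_mul_I]; ring
  rw [e1, e2]
  simp only [map_smul, map_neg, smul_apply, smul_eq_mul]
  ring

lemma continuousOn_one {r : ℝ} (hr : r < 1) :
    ContinuousOn (fun p : ℝ × ℝ => fderiv ℝ G (pt p.1 p.2) (Complex.exp (p.2 * I)))
      (Icc 0 r ×ˢ Icc (-π) π) := by
  have h1 : ContinuousOn (fun p : ℝ × ℝ => fderiv ℝ G (pt p.1 p.2)) (Icc 0 r ×ˢ Icc (-π) π) := by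
    refine (contDiffOn_fderiv hG).continuousOn.comp continuous_pt.continuousOn ?_
    rintro ⟨s, θ⟩ ⟨hs, _⟩
    exact pt_mem_ball (by rw [abs_of_nonneg hs.1]; linarith [hs.2])
  have h2 : Continuous fun p : ℝ × ℝ => Complex.exp (p.2 * I) := by fun_prop
  exact h1.clm_apply h2.continuousOn

lemma continuousOn_two {r : ℝ} (hr : r < 1) {u : ℝ → ℂ} (hu : Continuous u) :
    ContinuousOn (fun p : ℝ × ℝ => p.1 * fderiv ℝ (fderiv ℝ G) (pt p.1 p.2) (u p.2) (u p.2))
      (Icc 0 r ×ˢ Icc (-π) π) := by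
  have h1 : ContinuousOn (fun p : ℝ × ℝ => fderiv ℝ (fderiv ℝ G) (pt p.1 p.2))
      (Icc 0 r ×ˢ Icc (-π) π) := by
    refine (continuousOn_fderiv_fderiv hG).comp continuous_pt.continuousOn ?_
    rintro ⟨s, θ⟩ ⟨hs, _⟩
    exact pt_mem_ball (by rw [abs_of_nonneg hs.1]; linarith [hs.2])
  have h2 : Continuous fun p : ℝ × ℝ => u p.2 := by fun_prop
  exact continuous_fst.continuousOn.mul ((h1.clm_apply h2.continuousOn).clm_apply h2.continuousOn)

end

lemma exp_pi_eq : Complex.exp ((π : ℝ) * I) = Complex.exp (((-π : ℝ) : ℂ) * I) := by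
  rw [Complex.exp_pi_mul_I]
  push_cast
  rw [neg_mul, Complex.exp_neg, Complex.exp_pi_mul_I]
  norm_num

lemma pt_pi_eq (s : ℝ) : pt s π = pt s (-π) := by
  unfold pt
  rw [exp_pi_eq]

/-- swap of integrals for continuous functions on a compact rectangle -/
lemma swap_of_continuousOn {F : ℝ → ℝ → ℝ} {t : ℝ} (ht : 0 ≤ t)
    (hF : ContinuousOn (fun p : ℝ × ℝ => F p.1 p.2) (Icc 0 t ×ˢ Icc (-π) π)) :
    ∫ s in (0 : ℝ)..t, ∫ θ in (-π)..π, F s θ = ∫ θ in (-π)..π, ∫ s in (0 : ℝ)..t, F s θ := by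
  apply intervalIntegral_intervalIntegral_swap
  have hint : IntegrableOn (fun p : ℝ × ℝ => F p.1 p.2) (Icc 0 t ×ˢ Icc (-π) π) :=
    hF.integrableOn_compact (isCompact_Icc.prod isCompact_Icc)
  rw [uIoc_of_le ht, uIoc_of_le (by linarith [Real.pi_pos])]
  exact hint.mono_set (prod_mono Ioc_subset_Icc_self Ioc_subset_Icc_self)

lemma slice_right {F : ℝ → ℝ → ℝ} {t s : ℝ} (hs : s ∈ Icc 0 t)
    (hF : ContinuousOn (fun p : ℝ × ℝ => F p.1 p.2) (Icc 0 t ×ˢ Icc (-π) π)) :
    ContinuousOn (fun θ => F s θ) (Icc (-π) π) :=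
  hF.comp (f := fun θ : ℝ => (s, θ)) (by fun_prop) fun _ hθ => ⟨hs, hθ⟩

lemma slice_left {F : ℝ → ℝ → ℝ} {t θ : ℝ} (hθ : θ ∈ Icc (-π) π)
    (hF : ContinuousOn (fun p : ℝ × ℝ => F p.1 p.2) (Icc 0 t ×ˢ Icc (-π) π)) :
    ContinuousOn (fun s => F s θ) (Icc 0 t) :=
  hF.comp (f := fun s : ℝ => (s, θ)) (by fun_prop) fun _ hs => ⟨hs, hθ⟩

lemma negpi_le_pi : (-π : ℝ) ≤ π := by linarith [Real.pi_pos]

/-- partial integrals of a continuous function on a rectangle are continuous -/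
lemma continuousOn_partial {F : ℝ → ℝ → ℝ} {t : ℝ} (ht : 0 ≤ t)
    (hF : ContinuousOn (fun p : ℝ × ℝ => F p.1 p.2) (Icc 0 t ×ˢ Icc (-π) π)) :
    ContinuousOn (fun s => ∫ θ in (-π)..π, F s θ) (Icc 0 t) := by
  have hc : Continuous fun p : ℝ × ℝ =>
      F (projIcc 0 t ht p.1) (projIcc (-π) π negpi_le_pi p.2) := by
    have h1 : Continuous fun p : ℝ × ℝ =>
        (((projIcc 0 t ht p.1 : Icc (0:ℝ) t) : ℝ), ((projIcc (-π) π negpi_le_pi p.2 : Icc (-π) π) : ℝ)) := by
      have := continuous_projIcc (h := ht)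
      have := continuous_projIcc (h := negpi_le_pi)
      fun_prop
    have h2 := hF.comp_continuous h1 fun p =>
      ⟨(projIcc 0 t ht p.1).2, (projIcc (-π) π negpi_le_pi p.2).2⟩
    exact h2
  have hc2 : Continuous fun s : ℝ => ∫ θ in (-π)..π,
      F (projIcc 0 t ht s) (projIcc (-π) π negpi_le_pi θ) :=
    intervalIntegral.continuous_parametric_intervalIntegral_of_continuous'
      (f := fun s θ => F (projIcc 0 t ht s) (projIcc (-π) π negpi_le_pi θ)) hc (-π) π
  refine hc2.continuousOn.congr fun s hs => ?_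
  refine intervalIntegral.integral_congr fun θ hθ => ?_
  rw [uIcc_of_le negpi_le_pi] at hθ
  rw [projIcc_of_mem ht hs, projIcc_of_mem negpi_le_pi hθ]

lemma rectangle_mono {F : ℝ → ℝ → ℝ} {t r : ℝ} (htr : t ≤ r)
    (hF : ContinuousOn (fun p : ℝ × ℝ => F p.1 p.2) (Icc 0 r ×ˢ Icc (-π) π)) :
    ContinuousOn (fun p : ℝ × ℝ => F p.1 p.2) (Icc 0 t ×ˢ Icc (-π) π) :=
  hF.mono (prod_mono (Icc_subset_Icc_right htr) le_rfl)

lemma intervalIntegrable_slice_right {F : ℝ → ℝ → ℝ} {t s : ℝ} (hs : s ∈ Icc 0 t)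
    (hF : ContinuousOn (fun p : ℝ × ℝ => F p.1 p.2) (Icc 0 t ×ˢ Icc (-π) π)) :
    IntervalIntegrable (fun θ => F s θ) volume (-π) π := by
  apply ContinuousOn.intervalIntegrable
  rw [uIcc_of_le negpi_le_pi]
  exact slice_right hs hF

lemma intervalIntegrable_slice_left {F : ℝ → ℝ → ℝ} {t θ : ℝ} (ht : 0 ≤ t) (hθ : θ ∈ Icc (-π) π)
    (hF : ContinuousOn (fun p : ℝ × ℝ => F p.1 p.2) (Icc 0 t ×ˢ Icc (-π) π)) :
    IntervalIntegrable (fun s => F s θ) volume 0 t := by
  apply ContinuousOn.intervalIntegrable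
  rw [uIcc_of_le ht]
  exact slice_left hθ hF

section

variable {G n : ℂ → ℝ}

/-- the radial derivative -/
noncomputable def D1 (G : ℂ → ℝ) (s θ : ℝ) : ℝ := fderiv ℝ G (pt s θ) (Complex.exp (θ * I))

/-- second derivative times `s` in the radial direction -/
noncomputable def D2r (G : ℂ → ℝ) (s θ : ℝ) : ℝ :=
  s * fderiv ℝ (fderiv ℝ G) (pt s θ) (Complex.exp (θ * I)) (Complex.exp (θ * I))

/-- second derivative times `s` in the angular direction -/
noncomputable def D2a (G : ℂ → ℝ) (s θ : ℝ) : ℝ :=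
  s * fderiv ℝ (fderiv ℝ G) (pt s θ) (I * Complex.exp (θ * I)) (I * Complex.exp (θ * I))

lemma D2_add (G : ℂ → ℝ) (s θ : ℝ) : D2r G s θ + D2a G s θ = s * lap G (pt s θ) := by
  unfold D2r D2a lap
  rw [← mul_add, bilin_rot]

lemma angular_zero (hG : ContDiffOn ℝ 2 G (ball 0 1)) {r s : ℝ} (hr : r < 1) (hs : s ∈ Icc 0 r) :
    ∫ θ in (-π)..π, (D2a G s θ - D1 G s θ) = 0 := by
  have hs1 : |s| < 1 := by rw [abs_of_nonneg hs.1]; linarith [hs.2]
  have hD1 := continuousOn_one hG hr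
  have hD2 := continuousOn_two hG hr (u := fun θ => I * Complex.exp (θ * I)) (by fun_prop)
  have hint : IntervalIntegrable (fun θ => D2a G s θ - D1 G s θ) volume (-π) π :=
    (intervalIntegrable_slice_right (F := D2a G) hs hD2).sub
      (intervalIntegrable_slice_right (F := D1 G) hs hD1)
  rw [intervalIntegral.integral_eq_sub_of_hasDerivAt
    (f := fun θ : ℝ => fderiv ℝ G (pt s θ) (I * Complex.exp (θ * I)))
    (f' := fun θ => D2a G s θ - D1 G s θ)
    (fun θ _ => hasDerivAt_angular hG hs1) hint]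
  rw [pt_pi_eq, exp_pi_eq]
  push_cast
  ring

lemma radial_integral (hG : ContDiffOn ℝ 2 G (ball 0 1)) {r t : ℝ} (hr : r < 1)
    (ht : t ∈ Icc 0 r) {θ : ℝ} (hθ : θ ∈ Icc (-π) π) :
    ∫ s in (0:ℝ)..t, (D1 G s θ + D2r G s θ) = t * D1 G t θ := by
  have hD1 := rectangle_mono (F := D1 G) ht.2 (continuousOn_one hG hr)
  have hD2 := rectangle_mono (F := D2r G) ht.2
    (continuousOn_two hG hr (u := fun θ => Complex.exp (θ * I)) (by fun_prop))
  have hint : IntervalIntegrable (fun s => D1 G s θ + D2r G s θ) volume 0 t :=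
    (intervalIntegrable_slice_left ht.1 hθ hD1).add (intervalIntegrable_slice_left ht.1 hθ hD2)
  rw [intervalIntegral.integral_eq_sub_of_hasDerivAt
    (f := fun s : ℝ => s * fderiv ℝ G (pt s θ) (Complex.exp (θ * I)))
    (fun s hs => ?_) hint]
  · unfold D1; ring
  · rw [uIcc_of_le ht.1] at hs
    exact hasDerivAt_radial2 hG (by rw [abs_of_nonneg hs.1]; linarith [hs.2, ht.2])

/-- `t ∫ ∂_t G(t e^{iθ}) dθ ≤ ∫_{𝔻(t)} n`. -/
lemma radial_le (hG : ContDiffOn ℝ 2 G (ball 0 1)) (hn : ContinuousOn n (ball 0 1))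
    (hle : ∀ z ∈ ball (0 : ℂ) 1, lap G z ≤ n z) {r t : ℝ} (hr : r < 1) (ht : t ∈ Icc 0 r) :
    t * ∫ θ in (-π)..π, D1 G t θ ≤ ∫ z in ball (0 : ℂ) t, n z := by
  have hD1 := rectangle_mono (F := D1 G) ht.2 (continuousOn_one hG hr)
  have hD2 := rectangle_mono (F := D2r G) ht.2
    (continuousOn_two hG hr (u := fun θ => Complex.exp (θ * I)) (by fun_prop))
  have hD2a := rectangle_mono (F := D2a G) ht.2
    (continuousOn_two hG hr (u := fun θ => I * Complex.exp (θ * I)) (by fun_prop))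
  have hsum : ContinuousOn (fun p : ℝ × ℝ => (fun s θ => D1 G s θ + D2r G s θ) p.1 p.2)
      (Icc 0 t ×ˢ Icc (-π) π) := hD1.add hD2
  have hn' : ContinuousOn (fun p : ℝ × ℝ => (fun s θ => s * n (pt s θ)) p.1 p.2)
      (Icc 0 t ×ˢ Icc (-π) π) := by
    refine continuous_fst.continuousOn.mul (hn.comp continuous_pt.continuousOn ?_)
    rintro ⟨s, θ⟩ ⟨hs, _⟩
    exact pt_mem_ball (by rw [abs_of_nonneg hs.1]; linarith [hs.2, ht.2])
  have e1 : t * ∫ θ in (-π)..π, D1 G t θ =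
      ∫ s in (0:ℝ)..t, ∫ θ in (-π)..π, (D1 G s θ + D2r G s θ) := by
    rw [swap_of_continuousOn ht.1 hsum, ← intervalIntegral.integral_const_mul]
    refine intervalIntegral.integral_congr fun θ hθ => ?_
    rw [uIcc_of_le negpi_le_pi] at hθ
    exact (radial_integral hG hr ht hθ).symm
  rw [e1, integral_ball_polar ht.1 (hn.mono (closedBall_subset_ball (by linarith [ht.2])))]
  refine intervalIntegral.integral_mono_on ht.1 ?_ ?_ ?_
  · apply ContinuousOn.intervalIntegrable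
    rw [uIcc_of_le ht.1]
    exact continuousOn_partial ht.1 hsum
  · apply ContinuousOn.intervalIntegrable
    rw [uIcc_of_le ht.1]
    exact continuousOn_partial ht.1 hn'
  · intro s hs
    have hs' : s ∈ Icc 0 r := ⟨hs.1, hs.2.trans ht.2⟩
    have hz := angular_zero hG hr hs'
    have i1 := intervalIntegrable_slice_right (F := D1 G) hs hD1
    have i2 := intervalIntegrable_slice_right (F := D2r G) hs hD2
    have i3 := intervalIntegrable_slice_right (F := D2a G) hs hD2a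
    have e2 : ∫ θ in (-π)..π, (D1 G s θ + D2r G s θ) =
        ∫ θ in (-π)..π, s * lap G (pt s θ) := by
      have : ∫ θ in (-π)..π, (D1 G s θ + D2r G s θ) =
          (∫ θ in (-π)..π, (D1 G s θ + D2r G s θ)) + ∫ θ in (-π)..π, (D2a G s θ - D1 G s θ) := by
        rw [hz, add_zero]
      rw [this, ← intervalIntegral.integral_add (i1.add i2) (i3.sub i1)]
      refine intervalIntegral.integral_congr fun θ _ => ?_
      rw [← D2_add]
      ring
    rw [e2]
    have i4 : IntervalIntegrable (fun θ => s * lap G (pt s θ)) volume (-π) π := by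
      have := i2.add i3
      refine this.congr ?_
      intro θ _
      exact D2_add G s θ
    refine intervalIntegral.integral_mono_on negpi_le_pi i4
      (intervalIntegrable_slice_right (F := fun s θ => s * n (pt s θ)) hs hn') ?_
    intro θ _
    apply mul_le_mul_of_nonneg_left _ hs.1
    exact hle _ (pt_mem_ball (by rw [abs_of_nonneg hs.1]; linarith [hs'.2]))

/-- the function `t ↦ (1/t) ∫_{𝔻(t)} n` is integrable on `(0,r)` -/
lemma intervalIntegrable_T (hn : ContinuousOn n (ball 0 1)) {r : ℝ} (hr0 : 0 ≤ r) (hr : r < 1) :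
    IntervalIntegrable (fun t => (1 / t) * ∫ z in ball (0 : ℂ) t, n z) volume 0 r := by
  have hn' : ContinuousOn (fun p : ℝ × ℝ => (fun s θ => s * n (pt s θ)) p.1 p.2)
      (Icc 0 r ×ˢ Icc (-π) π) := by
    refine continuous_fst.continuousOn.mul (hn.comp continuous_pt.continuousOn ?_)
    rintro ⟨s, θ⟩ ⟨hs, _⟩
    exact pt_mem_ball (by rw [abs_of_nonneg hs.1]; linarith [hs.2])
  have hk : ContinuousOn (fun s => ∫ θ in (-π)..π, s * n (pt s θ)) (Icc 0 r) :=
    continuousOn_partial hr0 hn'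
  set P : ℝ → ℝ := fun t => ∫ s in (0:ℝ)..t, ∫ θ in (-π)..π, s * n (pt s θ) with hP
  have hPc : ContinuousOn P (Icc 0 r) := by
    have := intervalIntegral.continuousOn_primitive_interval (μ := volume) (a := 0) (b := r)
      (f := fun s => ∫ θ in (-π)..π, s * n (pt s θ)) (by
        rw [uIcc_of_le hr0]; exact hk.integrableOn_compact isCompact_Icc)
    rwa [uIcc_of_le hr0] at this
  obtain ⟨K, hK⟩ := isCompact_Icc.exists_bound_of_continuousOn hk
  have hPb : ∀ t ∈ Icc 0 r, ‖P t‖ ≤ K * t := by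
    intro t ht
    have h1 := intervalIntegral.norm_integral_le_of_norm_le_const (a := 0) (b := t) (C := K)
      (f := fun s => ∫ θ in (-π)..π, s * n (pt s θ)) (fun s hs => by
        rw [uIoc_of_le ht.1] at hs
        exact hK s ⟨hs.1.le, hs.2.trans ht.2⟩)
    rwa [sub_zero, abs_of_nonneg ht.1] at h1
  have heq : ∀ t ∈ Ioc 0 r, (1 / t) * ∫ z in ball (0 : ℂ) t, n z = (1 / t) * P t := by
    intro t ht
    rw [integral_ball_polar ht.1.le (hn.mono (closedBall_subset_ball (by linarith [ht.2])))]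
  rw [intervalIntegrable_iff_integrableOn_Ioc_of_le hr0]
  have hI : IntegrableOn (fun t => (1 / t) * P t) (Ioc 0 r) := by
    refine Integrable.mono' (g := fun _ => K) (integrable_const K) ?_ ?_
    · refine ContinuousOn.aestronglyMeasurable ?_ measurableSet_Ioc
      refine ContinuousOn.mul ?_ (hPc.mono Ioc_subset_Icc_self)
      exact continuousOn_const.div continuousOn_id fun t ht => ht.1.ne'
    · refine (ae_restrict_mem measurableSet_Ioc).mono fun t ht => ?_
      have h1 := hPb t ⟨ht.1.le, ht.2⟩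
      rw [norm_mul, Real.norm_of_nonneg (by have := ht.1; positivity : (0:ℝ) ≤ 1 / t)]
      rw [div_mul_eq_mul_div, one_mul, div_le_iff₀ ht.1]
      exact h1
  exact hI.congr_fun (fun t ht => (heq t ht).symm) measurableSet_Ioc

/-- **Jensen-type inequality.** -/
theorem jensen_ineq (hG : ContDiffOn ℝ 2 G (ball 0 1)) (hn : ContinuousOn n (ball 0 1))
    (hle : ∀ z ∈ ball (0 : ℂ) 1, lap G z ≤ n z) {r : ℝ} (hr0 : 0 ≤ r) (hr : r < 1) :
    ∫ θ in (-π)..π, (G (pt r θ) - G 0) ≤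
      ∫ t in (0:ℝ)..r, (1 / t) * ∫ z in ball (0 : ℂ) t, n z := by
  have hD1 := continuousOn_one hG hr
  have hr' : r ∈ Icc 0 r := ⟨hr0, le_rfl⟩
  have e1 : ∫ θ in (-π)..π, (G (pt r θ) - G 0) = ∫ θ in (-π)..π, ∫ s in (0:ℝ)..r, D1 G s θ := by
    refine intervalIntegral.integral_congr fun θ hθ => ?_
    rw [uIcc_of_le negpi_le_pi] at hθ
    rw [intervalIntegral.integral_eq_sub_of_hasDerivAt (f := fun s => G (pt s θ))
      (fun s hs => ?_) (intervalIntegrable_slice_left (F := D1 G) hr0 hθ hD1)]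
    · simp [pt]
    · rw [uIcc_of_le hr0] at hs
      exact hasDerivAt_radial hG (by rw [abs_of_nonneg hs.1]; linarith [hs.2])
  rw [e1, ← swap_of_continuousOn (F := D1 G) hr0 hD1]
  refine intervalIntegral.integral_mono_on_of_le_Ioo hr0 ?_ (intervalIntegrable_T hn hr0 hr) ?_
  · apply ContinuousOn.intervalIntegrable
    rw [uIcc_of_le hr0]
    exact continuousOn_partial hr0 hD1
  · intro t ht
    have h1 := radial_le hG hn hle hr ⟨ht.1.le, ht.2.le⟩
    have h2 : 0 < 1 / t := by have := ht.1; positivity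
    have h3 := mul_le_mul_of_nonneg_left h1 h2.le
    rw [← mul_assoc, one_div_mul_cancel ht.1.ne', one_mul] at h3
    exact h3

end

end Pool.Agent.Nevan
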