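import Pool.Agent.Nevan.LogLap

/-!
# Elementary rules for the Laplacian; the function `-¼ log (1 - |ξ|²)`
-/

open Set Metric Filter
open scoped Topology ComplexConjugate

namespace Pool.Agent.Nevan

lemma lap_congr {G H : ℂ → ℝ} {z : ℂ} (h : G =ᶠ[𝓝 z] H) : lap G z = lap H z := by
  unfold lap
  have h1 : fderiv ℝ G =ᶠ[𝓝 z] fderiv ℝ H := h.fderiv
  rw [h1.fderiv_eq]

lemma lap_zero (z : ℂ) : lap (fun _ => (0 : ℝ)) z = 0 := by
  unfold lap
  simp

lemma lap_add {G H : ℂ → ℝ} {z : ℂ} (hG : ContDiffAt ℝ 2 G z) (hH : ContDiffAt ℝ 2 H z) :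
    lap (fun w => G w + H w) z = lap G z + lap H z := by
  have hGe := hG.eventually (by simp)
  have hHe := hH.eventually (by simp)
  have h1 : fderiv ℝ (fun w => G w + H w) =ᶠ[𝓝 z] fun w => fderiv ℝ G w + fderiv ℝ H w := by
    filter_upwards [hGe, hHe] with w h2 h3
    exact fderiv_fun_add (h2.differentiableAt (by norm_num)) (h3.differentiableAt (by norm_num))
  have hG' : DifferentiableAt ℝ (fderiv ℝ G) z :=
    (hG.fderiv_right (m := 1) (by norm_num)).differentiableAt (by norm_num)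
  have hH' : DifferentiableAt ℝ (fderiv ℝ H) z :=
    (hH.fderiv_right (m := 1) (by norm_num)).differentiableAt (by norm_num)
  unfold lap
  rw [h1.fderiv_eq, fderiv_fun_add hG' hH']
  simp only [add_apply]
  ring

lemma lap_const_mul {G : ℂ → ℝ} {z : ℂ} (hG : ContDiffAt ℝ 2 G z) (c : ℝ) :
    lap (fun w => c * G w) z = c * lap G z := by
  have hGe := hG.eventually (by simp)
  have h1 : fderiv ℝ (fun w => c * G w) =ᶠ[𝓝 z] fun w => c • fderiv ℝ G w := by
    filter_upwards [hGe] with w h2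
    exact fderiv_const_mul (h2.differentiableAt (by norm_num)) c
  have hG' : DifferentiableAt ℝ (fderiv ℝ G) z :=
    (hG.fderiv_right (m := 1) (by norm_num)).differentiableAt (by norm_num)
  unfold lap
  rw [h1.fderiv_eq, fderiv_fun_const_smul hG' c]
  simp only [smul_apply, smul_eq_mul]
  ring

lemma lap_sum {ι : Type*} (t : Finset ι) {G : ι → ℂ → ℝ} {z : ℂ}
    (hG : ∀ i ∈ t, ContDiffAt ℝ 2 (G i) z) :
    lap (fun w => ∑ i ∈ t, G i w) z = ∑ i ∈ t, lap (G i) z := by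
  classical
  induction t using Finset.induction_on with
  | empty => simpa using lap_zero z
  | insert a s ha ih =>
    have h1 : (fun w => ∑ i ∈ insert a s, G i w) = fun w => G a w + ∑ i ∈ s, G i w := by
      funext w
      rw [Finset.sum_insert ha]
    rw [h1, Finset.sum_insert ha, lap_add (hG a (Finset.mem_insert_self _ _)),
      ih fun i hi => hG i (Finset.mem_insert_of_mem hi)]
    exact ContDiffAt.sum fun i hi => hG i (Finset.mem_insert_of_mem hi)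

/-- The function `-¼ log (1 - |ξ|²)`. -/
noncomputable def discPot (ξ : ℂ) : ℝ := -(1 / 4) * Real.log (1 - ‖ξ‖ ^ 2)

lemma one_sub_normSq_pos {z : ℂ} (hz : z ∈ ball (0 : ℂ) 1) : 0 < 1 - ‖z‖ ^ 2 := by
  have : ‖z‖ < 1 := mem_ball_zero_iff.mp hz
  nlinarith [norm_nonneg z]

lemma contDiffAt_discPot {z : ℂ} (hz : z ∈ ball (0 : ℂ) 1) : ContDiffAt ℝ 2 discPot z := by
  have h0 := one_sub_normSq_pos hz
  unfold discPot
  have h1 : ContDiffAt ℝ 2 (fun w : ℂ => 1 - ‖w‖ ^ 2) z :=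
    contDiffAt_const.sub (contDiffAt_id.norm_sq ℝ)
  exact contDiffAt_const.mul (h1.log h0.ne')

lemma line_discPot {z : ℂ} (hz : z ∈ ball (0 : ℂ) 1) (u : ℂ) :
    fderiv ℝ (fderiv ℝ discPot) z u u =
      (1 / 2) * (‖u‖ ^ 2 / (1 - ‖z‖ ^ 2) + 2 * (inner ℝ z u) ^ 2 / (1 - ‖z‖ ^ 2) ^ 2) := by
  have hline : ∀ τ : ℝ, HasDerivAt (fun σ : ℝ => z + σ • u) u τ := by
    intro τ
    have := ((hasDerivAt_id τ).smul_const u).const_add z
    simpa using this
  have ht : Tendsto (fun σ : ℝ => z + σ • u) (𝓝 0) (𝓝 z) := by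
    have h : Tendsto (fun σ : ℝ => z + σ • u) (𝓝 0) (𝓝 (z + (0 : ℝ) • u)) :=
      (hline 0).continuousAt.tendsto
    simpa using h
  have hq : ∀ τ : ℝ, HasDerivAt (fun σ : ℝ => 1 - ‖z + σ • u‖ ^ 2)
      (-(2 * inner ℝ (z + τ • u) u)) τ := fun τ => (hline τ).norm_sq.const_sub 1
  have hi : ∀ τ : ℝ, HasDerivAt (fun σ : ℝ => inner ℝ (z + σ • u) u) (‖u‖ ^ 2) τ := by
    intro τ
    have h1 := (hline τ).inner ℝ (hasDerivAt_const τ u)
    refine h1.congr_deriv ?_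
    simp
  have h0 := one_sub_normSq_pos hz
  have hpos : ∀ᶠ τ in 𝓝 (0 : ℝ), z + τ • u ∈ ball (0 : ℂ) 1 :=
    ht.eventually (isOpen_ball.mem_nhds hz)
  have hg : ∀ᶠ τ in 𝓝 (0 : ℝ), HasDerivAt (fun σ : ℝ => discPot (z + σ • u))
      ((1 / 2) * (inner ℝ (z + τ • u) u / (1 - ‖z + τ • u‖ ^ 2))) τ := by
    filter_upwards [hpos] with τ hτ
    have h1 := one_sub_normSq_pos hτ
    have h2 := ((hq τ).log h1.ne').const_mul (-(1 / 4))
    refine h2.congr_deriv ?_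
    ring
  have hg' : HasDerivAt (fun τ : ℝ => (1 / 2) * (inner ℝ (z + τ • u) u / (1 - ‖z + τ • u‖ ^ 2)))
      ((1 / 2) * (‖u‖ ^ 2 / (1 - ‖z‖ ^ 2) + 2 * (inner ℝ z u) ^ 2 / (1 - ‖z‖ ^ 2) ^ 2)) 0 := by
    have e0 : 1 - ‖z + (0 : ℝ) • u‖ ^ 2 ≠ 0 := by simpa using h0.ne'
    have h2 := ((hi 0).div (hq 0) e0).const_mul (1 / 2)
    refine h2.congr_deriv ?_
    simp only [zero_smul, add_zero]
    have h3 := h0.ne'
    field_simp
    ring
  exact second_deriv_line (contDiffAt_discPot hz) u hg hg'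

/-- `Δ(-¼ log (1 - |ξ|²)) = (1 - |ξ|²)^{-2}`. -/
lemma lap_discPot {z : ℂ} (hz : z ∈ ball (0 : ℂ) 1) : lap discPot z = 1 / (1 - ‖z‖ ^ 2) ^ 2 := by
  unfold lap
  rw [line_discPot hz, line_discPot hz]
  have h0 := one_sub_normSq_pos hz
  have e1 : inner ℝ z (1 : ℂ) = z.re := by
    rw [Complex.inner]
    simp
  have e2 : inner ℝ z Complex.I = z.im := by
    rw [Complex.inner]
    simp
  have e3 : ‖z‖ ^ 2 = z.re ^ 2 + z.im ^ 2 := by
    rw [← Complex.normSq_eq_norm_sq, Complex.normSq_apply]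
    ring
  rw [e1, e2, Complex.norm_I, norm_one]
  have e4 : z.im ^ 2 = ‖z‖ ^ 2 - z.re ^ 2 := by rw [e3]; ring
  have h3 := h0.ne'
  field_simp
  rw [e4]
  ring

end Pool.Agent.Nevan
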