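import Mathlib

/-!
# The infinitesimal Schwarz–Pick inequality at the centre of the disc
-/

open Set Metric Complex
open scoped Topology ComplexConjugate

namespace Pool.Agent.Nevan

lemma one_sub_ne {ξ w : ℂ} (hξ : ‖ξ‖ < 1) (hw : ‖w‖ < 1) : 1 - conj ξ * w ≠ 0 := by
  intro h
  have h1 : conj ξ * w = 1 := by linear_combination -h
  have h2 : ‖conj ξ * w‖ < 1 := by
    rw [norm_mul, RCLike.norm_conj]
    nlinarith [norm_nonneg ξ, norm_nonneg w]
  rw [h1] at h2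
  simp at h2

/-- The Möbius map sending `ξ` to `0`. -/
noncomputable def mob (ξ w : ℂ) : ℂ := (w - ξ) / (1 - conj ξ * w)

lemma norm_mob_lt {ξ w : ℂ} (hξ : ‖ξ‖ < 1) (hw : ‖w‖ < 1) : ‖mob ξ w‖ < 1 := by
  unfold mob
  have hne := one_sub_ne hξ hw
  rw [norm_div, div_lt_one (norm_pos_iff.mpr hne)]
  rw [← sq_lt_sq₀ (norm_nonneg _) (norm_nonneg _)]
  rw [← Complex.normSq_eq_norm_sq, ← Complex.normSq_eq_norm_sq]
  have h1 : ‖ξ‖ ^ 2 < 1 := by nlinarith [norm_nonneg ξ]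
  have h2 : ‖w‖ ^ 2 < 1 := by nlinarith [norm_nonneg w]
  rw [← Complex.normSq_eq_norm_sq] at h1 h2
  have key : Complex.normSq (1 - conj ξ * w) - Complex.normSq (w - ξ) =
      (1 - Complex.normSq w) * (1 - Complex.normSq ξ) := by
    simp only [Complex.normSq_apply, Complex.sub_re, Complex.sub_im, Complex.mul_re,
      Complex.mul_im, Complex.one_re, Complex.one_im, Complex.conj_re, Complex.conj_im]
    ring
  nlinarith [mul_pos (sub_pos.mpr h2) (sub_pos.mpr h1)]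

lemma hasDerivAt_mob {ξ : ℂ} (hξ : ‖ξ‖ < 1) :
    HasDerivAt (mob ξ) (1 / (1 - (‖ξ‖ : ℂ) ^ 2)) ξ := by
  have hne := one_sub_ne hξ hξ
  have h1 : HasDerivAt (fun w : ℂ => w - ξ) 1 ξ := (hasDerivAt_id ξ).sub_const ξ
  have h2 : HasDerivAt (fun w : ℂ => 1 - conj ξ * w) (-(conj ξ * 1)) ξ :=
    ((hasDerivAt_id ξ).const_mul (conj ξ)).const_sub 1
  have h3 := h1.div h2 hne
  have e : conj ξ * ξ = (‖ξ‖ : ℂ) ^ 2 := by
    rw [mul_comm, Complex.mul_conj, Complex.normSq_eq_norm_sq]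
    push_cast
    rfl
  refine h3.congr_deriv ?_
  rw [← e]
  field_simp
  ring

/-- **Schwarz–Pick**: a holomorphic self-map `f` of the disc satisfies `|f'(0)| ≤ 1 - |f(0)|²`. -/
theorem schwarz_pick {f : ℂ → ℂ} (hd : DifferentiableOn ℂ f (ball 0 1))
    (hm : MapsTo f (ball 0 1) (ball 0 1)) : ‖deriv f 0‖ ≤ 1 - ‖f 0‖ ^ 2 := by
  have h0 : (0 : ℂ) ∈ ball (0 : ℂ) 1 := mem_ball_self one_pos
  have hξ : ‖f 0‖ < 1 := mem_ball_zero_iff.mp (hm h0)
  have hmd : ∀ w ∈ ball (0 : ℂ) 1, DifferentiableAt ℂ (mob (f 0)) w := by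
    intro w hw
    have hne := one_sub_ne hξ (mem_ball_zero_iff.mp hw)
    unfold mob
    refine DifferentiableAt.div (by fun_prop) (by fun_prop) hne
  have hg : DifferentiableOn ℂ (fun z => mob (f 0) (f z)) (ball 0 1) := by
    intro z hz
    exact ((hmd (f z) (hm hz)).comp_differentiableWithinAt z (hd z hz))
  have hg0 : mob (f 0) (f 0) = 0 := by simp [mob]
  have hgm : MapsTo (fun z => mob (f 0) (f z)) (ball 0 1) (ball (mob (f 0) (f 0)) 1) := by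
    intro z hz
    rw [hg0, mem_ball_zero_iff]
    exact norm_mob_lt hξ (mem_ball_zero_iff.mp (hm hz))
  have h1 := Complex.norm_deriv_le_div_of_mapsTo_ball hg
    (hgm.mono_right ball_subset_closedBall) one_pos
  have hf : HasDerivAt f (deriv f 0) 0 :=
    (hd.differentiableAt (isOpen_ball.mem_nhds h0)).hasDerivAt
  have h2 : HasDerivAt (fun z => mob (f 0) (f z)) (1 / (1 - (‖f 0‖ : ℂ) ^ 2) * deriv f 0) 0 :=
    (hasDerivAt_mob hξ).comp 0 hf
  rw [h2.deriv, norm_mul, norm_div, norm_one, div_one] at h1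
  have hpos : 0 < 1 - ‖f 0‖ ^ 2 := by nlinarith [norm_nonneg (f 0)]
  have e : ‖(1 - (‖f 0‖ : ℂ) ^ 2 : ℂ)‖ = 1 - ‖f 0‖ ^ 2 := by
    have : (1 - (‖f 0‖ : ℂ) ^ 2 : ℂ) = ((1 - ‖f 0‖ ^ 2 : ℝ) : ℂ) := by push_cast; ring
    rw [this, Complex.norm_real, Real.norm_of_nonneg hpos.le]
  rw [e, div_mul_eq_mul_div, one_mul, div_le_one hpos] at h1
  exact h1

end Pool.Agent.Nevan
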