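import Pool.Agent.Nevan.Charts
import Pool.Agent.Nevan.SchwarzPick

/-!
# Lifting tangent discs to the universal covering of a leaf
-/

set_option linter.unusedSectionVars false

open scoped Manifold ContDiff Topology
open Set Metric Filter

namespace Pool.Agent.Nevan

variable {E : Type*} [NormedAddCommGroup E] [NormedSpace ℂ E]
  {M : Type*} [TopologicalSpace M] [ChartedSpace E M] [IsManifold 𝓘(ℂ, E) ω M]

lemma continuous_tangentDisc {F : Foliation E M} {ψ : ℂ → M} (hψ : F.IsTangentDisc ψ) :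
    Continuous fun z : ball (0 : ℂ) 1 => (show F.LeafSpace from ψ z) := by
  rw [continuous_iff_coinduced_le]
  exact le_iSup (fun ψ : {ψ : ℂ → M // F.IsTangentDisc ψ} =>
    TopologicalSpace.coinduced (fun z : ball (0 : ℂ) 1 => (ψ.1 z : M)) inferInstance) ⟨ψ, hψ⟩

instance : SimplyConnectedSpace (ball (0 : ℂ) 1) := by
  have : ContractibleSpace (ball (0 : ℂ) 1) :=
    (convex_ball (0 : ℂ) 1).contractibleSpace ⟨0, mem_ball_self one_pos⟩
  infer_instance

instance : LocallyPathConnectedSpace (ball (0 : ℂ) 1) := isOpen_ball.locallyPathConnectedSpace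

/-- A tangent disc through a point of the leaf stays in the leaf. -/
lemma tangentDisc_mem_leaf {F : Foliation E M} {a : M} {ψ : ℂ → M} (hψ : F.IsTangentDisc ψ)
    (h0 : (show F.LeafSpace from ψ 0) ∈ F.leaf a) (z : ball (0 : ℂ) 1) :
    (show F.LeafSpace from ψ z) ∈ F.leaf a := by
  have hc := continuous_tangentDisc hψ
  have hr : IsPreconnected (range fun z : ball (0 : ℂ) 1 => (show F.LeafSpace from ψ z)) :=
    isPreconnected_range hc
  have hmem0 : (show F.LeafSpace from ψ 0) ∈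
      range fun z : ball (0 : ℂ) 1 => (show F.LeafSpace from ψ z) :=
    ⟨⟨0, mem_ball_self one_pos⟩, rfl⟩
  have h1 := hr.subset_connectedComponent hmem0
  have h2 : connectedComponent (show F.LeafSpace from a) =
      connectedComponent (show F.LeafSpace from ψ 0) := connectedComponent_eq h0
  unfold Foliation.leaf
  rw [h2]
  exact h1 ⟨z, rfl⟩

/-- Tangent discs lift to the universal covering. -/
lemma exists_lift {F : Foliation E M} {a : M} {φ : ℂ → M} (hφ : F.IsUniversalCovering a φ)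
    {ξ : ℂ} (hξ : ξ ∈ ball (0 : ℂ) 1) {ψ : ℂ → M} (hψ : F.IsTangentDisc ψ) (h0 : ψ 0 = φ ξ) :
    ∃ g : ℂ → ℂ, ContinuousOn g (ball 0 1) ∧ MapsTo g (ball 0 1) (ball 0 1) ∧ g 0 = ξ ∧
      ∀ z ∈ ball (0 : ℂ) 1, φ (g z) = ψ z := by
  obtain ⟨h, hcov⟩ := hφ.covering
  have hmem : ∀ z : ball (0 : ℂ) 1, (show F.LeafSpace from ψ z) ∈ F.leaf a := by
    apply tangentDisc_mem_leaf hψ
    have := h ⟨ξ, hξ⟩
    simp only at this
    rw [← h0] at this
    exact this
  let f : C(ball (0 : ℂ) 1, F.leaf a) :=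
    ⟨fun z => ⟨ψ z, hmem z⟩, Continuous.subtype_mk (continuous_tangentDisc hψ) _⟩
  obtain ⟨G, ⟨hG0, hG⟩, -⟩ := hcov.existsUnique_continuousMap_lifts f
    ⟨0, mem_ball_self one_pos⟩ ⟨ξ, hξ⟩ (Subtype.ext h0.symm)
  classical
  refine ⟨fun z => if hz : z ∈ ball (0 : ℂ) 1 then (G ⟨z, hz⟩ : ℂ) else 0, ?_, ?_, ?_, ?_⟩
  · rw [continuousOn_iff_continuous_domRestrict]
    have : Continuous fun z : ball (0 : ℂ) 1 => (G z : ℂ) :=
      continuous_subtype_val.comp G.continuous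
    refine this.congr fun z => ?_
    change (G z : ℂ) = if hz : (z : ℂ) ∈ ball (0 : ℂ) 1 then (G ⟨z, hz⟩ : ℂ) else 0
    rw [dif_pos z.2]
  · intro z hz
    simp only [hz, dif_pos]
    exact (G ⟨z, hz⟩).2
  · have h1 : (0 : ℂ) ∈ ball (0 : ℂ) 1 := mem_ball_self one_pos
    simp only [h1, dif_pos]
    rw [hG0]
  · intro z hz
    simp only [hz, dif_pos]
    have h1 := congrFun hG ⟨z, hz⟩
    exact congrArg Subtype.val h1

/-- A curve in a chart is analytic. -/
lemma analyticAt_chart [CompleteSpace E] {e : OpenPartialHomeomorph M E} (he : e ∈ holCharts E M)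
    {φ : ℂ → M} (hφ : ∀ z ∈ ball (0 : ℂ) 1, HolAt (E := E) φ z) {z : ℂ}
    (hz : z ∈ ball (0 : ℂ) 1) (hze : φ z ∈ e.source) : AnalyticAt ℂ (fun w => e (φ w)) z := by
  have hn1 : ∀ᶠ w in 𝓝 z, w ∈ ball (0 : ℂ) 1 := isOpen_ball.mem_nhds hz
  have hn2 : ∀ᶠ w in 𝓝 z, φ w ∈ e.source :=
    (MDifferentiableAt.continuousAt (hφ z hz)).preimage_mem_nhds (e.open_source.mem_nhds hze)
  apply Complex.analyticAt_iff_eventually_differentiableAt.mpr
  filter_upwards [hn1, hn2] with w h1 h2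
  exact (hasDerivAt_chart he (hφ w h1) h2).differentiableAt

/-- **Key estimate.** If `ψ` is a holomorphic disc tangent to `F` with `ψ(0) = φ(ξ)` and
`ψ'(0) = s φ'(ξ)`, then `|s| ≤ 1 - |ξ|²`. (The equality of tangent vectors is read in a chart.) -/
theorem norm_le_of_tangentDisc [CompleteSpace E] {F : Foliation E M} {a : M} {φ : ℂ → M}
    (hφ : F.IsUniversalCovering a φ) {ξ : ℂ} (hξ : ξ ∈ ball (0 : ℂ) 1) {ψ : ℂ → M}
    (hψ : F.IsTangentDisc ψ) (h0 : ψ 0 = φ ξ) {s : ℂ} {e₁ : OpenPartialHomeomorph M E}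
    (he₁ : e₁ ∈ holCharts E M) (hs₁ : ψ 0 ∈ e₁.source)
    (hs : velocity e₁ ψ 0 = s • velocity e₁ φ ξ) :
    ‖s‖ ≤ 1 - ‖ξ‖ ^ 2 := by
  obtain ⟨g, hgc, hgm, hg0, hg⟩ := exists_lift hφ hξ hψ h0
  have hφd : ∀ z ∈ ball (0 : ℂ) 1, HolAt (E := E) φ z := fun z hz => (hφ.tangent z hz).1
  have hψd : ∀ z ∈ ball (0 : ℂ) 1, HolAt (E := E) ψ z := fun z hz => (hψ z hz).1
  -- the local computation
  have key : ∀ z₀ ∈ ball (0 : ℂ) 1, ∃ e ∈ holCharts E M,
      ψ z₀ ∈ e.source ∧ ∃ ℓ : E →L[ℂ] ℂ,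
      ℓ (velocity e φ (g z₀)) ≠ 0 ∧
      HasDerivAt g ((ℓ (velocity e φ (g z₀)))⁻¹ * ℓ (velocity e ψ z₀)) z₀ := by
    intro z₀ hz₀
    obtain ⟨e, he, hxe, v, hv, hve⟩ := F.foliated (ψ z₀) (hψ z₀ hz₀).2.1
    obtain ⟨ℓ, hℓ⟩ := SeparatingDual.exists_ne_zero (R := ℂ) hv
    have hgz : g z₀ ∈ ball (0 : ℂ) 1 := hgm hz₀
    have hφs : φ (g z₀) ∈ e.source := by rw [hg z₀ hz₀]; exact hxe
    have hα := hasDerivAt_chart he (hφd _ hgz) hφs
    have hαa := analyticAt_chart he hφd hgz hφs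
    have hβ := hasDerivAt_chart he (hψd _ hz₀) hxe
    set α : ℂ → ℂ := fun w => ℓ (e (φ w)) with hαdef
    set β : ℂ → ℂ := fun w => ℓ (e (ψ w)) with hβdef
    have hα' : HasDerivAt α (ℓ (velocity e φ (g z₀))) (g z₀) :=
      ℓ.hasFDerivAt.comp_hasDerivAt _ hα
    have hβ' : HasDerivAt β (ℓ (velocity e ψ z₀)) z₀ :=
      ℓ.hasFDerivAt.comp_hasDerivAt _ hβ
    have hαan : AnalyticAt ℂ α (g z₀) := ℓ.analyticAt _ |>.comp hαa
    have hne : ℓ (velocity e φ (g z₀)) ≠ 0 := by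
      have h1 := (hφ.tangent _ hgz).2.2 e he hφs
      rw [(hve _ hφs).2] at h1
      obtain ⟨c, hc⟩ := Submodule.mem_span_singleton.mp h1
      have hc0 : c ≠ 0 := by
        rintro rfl
        rw [zero_smul] at hc
        exact hφ.immersion _ hgz e he hφs hc.symm
      rw [← hc, map_smul, smul_eq_mul]
      exact mul_ne_zero hc0 hℓ
    have hstrict : HasStrictDerivAt α (ℓ (velocity e φ (g z₀))) (g z₀) := by
      have := hαan.hasStrictDerivAt
      rwa [hα'.deriv] at this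
    refine ⟨e, he, hxe, ℓ, hne, ?_⟩
    have hinv := hstrict.to_localInverse hne
    have hleft := hstrict.eventually_left_inverse hne
    have hαβ : α (g z₀) = β z₀ := by simp only [hαdef, hβdef, hg z₀ hz₀]
    rw [hαβ] at hinv
    have h3 := hinv.hasDerivAt.comp z₀ hβ'
    refine h3.congr_of_eventuallyEq ?_
    have hgcont : ContinuousAt g z₀ := hgc.continuousAt (isOpen_ball.mem_nhds hz₀)
    have hn1 : ∀ᶠ w in 𝓝 z₀, w ∈ ball (0 : ℂ) 1 := isOpen_ball.mem_nhds hz₀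
    filter_upwards [hn1, hgcont.eventually hleft] with w hw1 hw2
    simp only [Function.comp]
    have : β w = α (g w) := by simp only [hαdef, hβdef, hg w hw1]
    rw [this, hw2]
  have hgd : DifferentiableOn ℂ g (ball 0 1) := by
    intro z hz
    obtain ⟨_, _, _, _, _, hd⟩ := key z hz
    exact hd.differentiableAt.differentiableWithinAt
  have hz0 : (0 : ℂ) ∈ ball (0 : ℂ) 1 := mem_ball_self one_pos
  obtain ⟨e, he, hxe, ℓ, hne, hd⟩ := key 0 hz0
  have h1 := schwarz_pick hgd hgm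
  rw [hd.deriv, hg0] at h1
  rw [hg0] at hne
  have h2 : velocity e ψ 0 = s • velocity e φ ξ := by
    have hs₁' : φ ξ ∈ e₁.source := by rw [← h0]; exact hs₁
    have hxe' : φ ξ ∈ e.source := by rw [← h0]; exact hxe
    rw [velocity_change he₁ he (hψd 0 hz0) hs₁ hxe, velocity_change he₁ he (hφd ξ hξ) hs₁' hxe',
      hs, change_smul, h0]
  rw [h2, map_smul, smul_eq_mul] at h1
  have h3 : (ℓ (velocity e φ ξ))⁻¹ * (s * ℓ (velocity e φ ξ)) = s := by
    field_simp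
  rw [h3] at h1
  exact h1

end Pool.Agent.Nevan
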