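import Mathlib

/-!
# The discs `τ ↦ exp(τ δ A) z₀`
-/

open Metric Filter
open scoped Topology Nat

namespace Pool.Agent.Nevan

variable {E : Type*} [NormedAddCommGroup E] [NormedSpace ℂ E] [CompleteSpace E]

lemma norm_exp_apply_le (B : E →L[ℂ] E) (v : E) :
    ‖NormedSpace.exp B v‖ ≤ Real.exp ‖B‖ * ‖v‖ := by
  have h1 : HasSum (fun n : ℕ => ((n ! : ℂ)⁻¹) • B ^ n) (NormedSpace.exp B) :=
    NormedSpace.exp_series_hasSum_exp' B
  have h2 := (ContinuousLinearMap.apply ℂ E v).hasSum h1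
  have h3 : HasSum (fun n : ℕ => ‖B‖ ^ n / (n ! : ℝ)) (Real.exp ‖B‖) := by
    rw [Real.exp_eq_exp_ℝ]
    exact NormedSpace.expSeries_div_hasSum_exp ‖B‖
  have h4 := h3.mul_right ‖v‖
  refine h2.norm_le_of_bounded h4 fun n => ?_
  have h5 : (ContinuousLinearMap.apply ℂ E v) (((n ! : ℂ)⁻¹) • B ^ n) =
      ((n ! : ℂ)⁻¹) • (B ^ n) v := rfl
  rw [h5, norm_smul, norm_inv, Complex.norm_natCast]
  have h6 : ∀ n : ℕ, ‖(B ^ n) v‖ ≤ ‖B‖ ^ n * ‖v‖ := by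
    intro n
    induction n with
    | zero => simp
    | succ n ih =>
      rw [pow_succ', mul_apply_eq_comp]
      calc ‖B ((B ^ n) v)‖ ≤ ‖B‖ * ‖(B ^ n) v‖ := B.le_opNorm _
        _ ≤ ‖B‖ * (‖B‖ ^ n * ‖v‖) := mul_le_mul_of_nonneg_left ih (norm_nonneg _)
        _ = ‖B‖ ^ (n + 1) * ‖v‖ := by ring
  calc (n ! : ℝ)⁻¹ * ‖(B ^ n) v‖ ≤ (n ! : ℝ)⁻¹ * (‖B‖ ^ n * ‖v‖) := by
        apply mul_le_mul_of_nonneg_left (h6 n) (by positivity)
    _ = ‖B‖ ^ n / (n ! : ℝ) * ‖v‖ := by ring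

lemma exists_linear_disc (A : E →L[ℂ] E) {δ : ℝ} (hδ : 0 ≤ δ) {z₀ : E} (hz₀ : z₀ ≠ 0) :
    ∃ c : ℂ → E, c 0 = z₀ ∧ (∀ τ, HasDerivAt c ((δ : ℂ) • A (c τ)) τ) ∧ (∀ τ, c τ ≠ 0) ∧
      ∀ τ ∈ ball (0 : ℂ) 1, ‖c τ‖ ≤ Real.exp (δ * ‖A‖) * ‖z₀‖ := by
  set B : E →L[ℂ] E := (δ : ℂ) • A with hB
  refine ⟨fun τ => NormedSpace.exp (τ • B) z₀, ?_, fun τ => ?_, fun τ => ?_, fun τ hτ => ?_⟩
  · simp only [zero_smul, NormedSpace.exp_zero]
    rfl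
  · have h1 := hasDerivAt_exp_smul_const' (𝕂 := ℂ) B τ
    have h2 := h1.clm_apply (hasDerivAt_const τ z₀)
    refine h2.congr_deriv ?_
    simp [hB]
  · intro h
    apply hz₀
    have h1 : NormedSpace.exp (-(τ • B)) * NormedSpace.exp (τ • B) = 1 := by
      let +nondep : NormedAlgebra ℚ (E →L[ℂ] E) := .restrictScalars ℚ ℂ (E →L[ℂ] E)
      rw [← NormedSpace.exp_add_of_commute (Commute.neg_left (Commute.refl (τ • B))),
        neg_add_cancel, NormedSpace.exp_zero]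
    have h2 : (NormedSpace.exp (-(τ • B)) * NormedSpace.exp (τ • B)) z₀ = z₀ := by
      rw [h1]; rfl
    rw [mul_apply_eq_comp] at h2
    simp only at h
    rw [h, map_zero] at h2
    exact h2.symm
  · refine (norm_exp_apply_le _ _).trans ?_
    apply mul_le_mul_of_nonneg_right _ (norm_nonneg _)
    apply Real.exp_le_exp.mpr
    rw [norm_smul, hB, norm_smul, Complex.norm_real, Real.norm_of_nonneg hδ]
    have : ‖τ‖ < 1 := mem_ball_zero_iff.mp hτ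
    have h3 : 0 ≤ δ * ‖A‖ := by positivity
    nlinarith

end Pool.Agent.Nevan
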