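import Pool.Agent.Nevan.Jensen

/-!
# The Laplacian of `F (log ‖Z‖² - c)` for a holomorphic vector-valued `Z`
-/

open Set Metric Filter
open scoped Topology ComplexConjugate

namespace Pool.Agent.Nevan

/-! ### The cut-off function -/

/-- `F(t) = χ(-t) log(2 - t)`: equal to `log (2 - t)` for `t ≤ -1` and to `0` for `t ≥ 0`. -/
noncomputable def Fcut (t : ℝ) : ℝ := Real.smoothTransition (-t) * Real.log (2 - t)

lemma Fcut_of_nonneg {t : ℝ} (ht : 0 ≤ t) : Fcut t = 0 := by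
  unfold Fcut
  rw [Real.smoothTransition.zero_of_nonpos (by linarith), zero_mul]

lemma Fcut_of_le {t : ℝ} (ht : t ≤ -1) : Fcut t = Real.log (2 - t) := by
  unfold Fcut
  rw [Real.smoothTransition.one_of_one_le (by linarith), one_mul]

lemma Fcut_nonneg (t : ℝ) : 0 ≤ Fcut t := by
  rcases le_total 0 t with h | h
  · rw [Fcut_of_nonneg h]
  · unfold Fcut
    exact mul_nonneg (Real.smoothTransition.nonneg _) (Real.log_nonneg (by linarith))

lemma contDiff_Fcut : ContDiff ℝ 2 Fcut := by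
  rw [contDiff_iff_contDiffAt]
  intro t
  rcases lt_or_ge t 1 with h | h
  · unfold Fcut
    have h1 : ContDiffAt ℝ 2 (fun t : ℝ => Real.smoothTransition (-t)) t :=
      (Real.smoothTransition.contDiffAt (n := 2)).comp t contDiff_neg.contDiffAt
    have h2 : ContDiffAt ℝ 2 (fun t : ℝ => Real.log (2 - t)) t :=
      (contDiffAt_const.sub contDiffAt_id).log (by simp only [id]; linarith)
    exact h1.mul h2
  · have : Fcut =ᶠ[𝓝 t] fun _ => 0 := by
      filter_upwards [lt_mem_nhds (show (0:ℝ) < t by linarith)] with s hs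
      exact Fcut_of_nonneg hs.le
    exact contDiffAt_const.congr_of_eventuallyEq this

lemma Fcut_eventually {t : ℝ} (ht : t < -1) : Fcut =ᶠ[𝓝 t] fun t => Real.log (2 - t) := by
  filter_upwards [gt_mem_nhds ht] with s hs
  exact Fcut_of_le hs.le

lemma hasDerivAt_log2 {t : ℝ} (ht : t < 2) :
    HasDerivAt (fun t : ℝ => Real.log (2 - t)) (-(1 / (2 - t))) t := by
  have h1 : HasDerivAt (fun t : ℝ => 2 - t) (-1) t := (hasDerivAt_id t).const_sub 2
  have h2 := h1.log (by linarith)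
  refine h2.congr_deriv ?_
  ring

lemma deriv_Fcut_of_lt {t : ℝ} (ht : t < -1) : deriv Fcut t = -(1 / (2 - t)) := by
  rw [(Fcut_eventually ht).deriv_eq]
  exact (hasDerivAt_log2 (by linarith)).deriv

lemma deriv_deriv_Fcut_of_lt {t : ℝ} (ht : t < -1) :
    deriv (deriv Fcut) t = -(1 / (2 - t) ^ 2) := by
  have h1 : deriv Fcut =ᶠ[𝓝 t] fun t => -(1 / (2 - t)) := by
    filter_upwards [gt_mem_nhds ht] with s hs
    exact deriv_Fcut_of_lt hs
  rw [h1.deriv_eq]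
  have h2 : HasDerivAt (fun t : ℝ => 2 - t) (-1) t := (hasDerivAt_id t).const_sub 2
  have hne : (2 - t) ≠ 0 := by linarith
  have h3 : HasDerivAt (fun t : ℝ => -(1 / (2 - t))) (-(1 / (2 - t) ^ 2)) t := by
    have h4 := (h2.inv hne).neg
    refine (h4.congr_of_eventuallyEq ?_).congr_deriv ?_
    · filter_upwards with s
      simp [one_div]
    · field_simp
  exact h3.deriv

lemma deriv_Fcut_of_pos {t : ℝ} (ht : 0 < t) : deriv Fcut t = 0 := by
  have : Fcut =ᶠ[𝓝 t] fun _ => 0 := by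
    filter_upwards [lt_mem_nhds ht] with s hs
    exact Fcut_of_nonneg hs.le
  rw [this.deriv_eq]
  simp

lemma deriv_deriv_Fcut_of_pos {t : ℝ} (ht : 0 < t) : deriv (deriv Fcut) t = 0 := by
  have : deriv Fcut =ᶠ[𝓝 t] fun _ => 0 := by
    filter_upwards [lt_mem_nhds ht] with s hs
    exact deriv_Fcut_of_pos hs
  rw [this.deriv_eq]
  simp

lemma contDiff_deriv_Fcut : ContDiff ℝ 1 (deriv Fcut) := by
  have := contDiff_Fcut
  rw [show (2 : WithTop ℕ∞) = 1 + 1 by norm_num, contDiff_succ_iff_deriv] at this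
  exact this.2.2

lemma continuous_deriv_deriv_Fcut : Continuous (deriv (deriv Fcut)) :=
  contDiff_deriv_Fcut.continuous_deriv le_rfl

lemma exists_bound_Fcut : ∃ C : ℝ, 0 ≤ C ∧ ∀ t, -1 ≤ t →
    |deriv Fcut t| ≤ C ∧ |deriv (deriv Fcut) t| ≤ C := by
  obtain ⟨C1, h1⟩ := isCompact_Icc.exists_bound_of_continuousOn (s := Icc (-1 : ℝ) 1)
    contDiff_deriv_Fcut.continuous.continuousOn
  obtain ⟨C2, h2⟩ := isCompact_Icc.exists_bound_of_continuousOn (s := Icc (-1 : ℝ) 1)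
    continuous_deriv_deriv_Fcut.continuousOn
  refine ⟨max 0 (max C1 C2), le_max_left _ _, fun t ht => ?_⟩
  rcases le_or_gt t 1 with h | h
  · exact ⟨(h1 t ⟨ht, h⟩).trans ((le_max_left _ _).trans (le_max_right _ _)),
      (h2 t ⟨ht, h⟩).trans ((le_max_right _ _).trans (le_max_right _ _))⟩
  · rw [deriv_Fcut_of_pos (by linarith), deriv_deriv_Fcut_of_pos (by linarith)]
    simp

/-! ### Second derivatives along lines -/

lemma second_deriv_line {G : ℂ → ℝ} {z : ℂ} (hG : ContDiffAt ℝ 2 G z) (u : ℂ) {g1 : ℝ → ℝ}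
    {g2 : ℝ} (h1 : ∀ᶠ τ in 𝓝 (0 : ℝ), HasDerivAt (fun σ : ℝ => G (z + σ • u)) (g1 τ) τ)
    (h2 : HasDerivAt g1 g2 0) : fderiv ℝ (fderiv ℝ G) z u u = g2 := by
  have hline : ∀ τ : ℝ, HasDerivAt (fun σ : ℝ => z + σ • u) u τ := by
    intro τ
    have := ((hasDerivAt_id τ).smul_const u).const_add z
    simpa using this
  have hcont : ContinuousAt (fun σ : ℝ => z + σ • u) 0 := (hline 0).continuousAt
  have hz0 : (fun σ : ℝ => z + σ • u) 0 = z := by simp
  have hd : ∀ᶠ w in 𝓝 z, DifferentiableAt ℝ G w := by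
    have := hG.eventually (by simp)
    filter_upwards [this] with w hw
    exact hw.differentiableAt (by norm_num)
  have hd' : ∀ᶠ τ in 𝓝 (0 : ℝ), DifferentiableAt ℝ G (z + τ • u) := by
    have : Tendsto (fun σ : ℝ => z + σ • u) (𝓝 0) (𝓝 z) := by
      have h : Tendsto (fun σ : ℝ => z + σ • u) (𝓝 0) (𝓝 (z + (0 : ℝ) • u)) := hcont.tendsto
      simpa using h
    exact this.eventually hd
  have he : ∀ᶠ τ in 𝓝 (0 : ℝ), g1 τ = fderiv ℝ G (z + τ • u) u := by
    filter_upwards [h1, hd'] with τ h3 h4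
    have h5 : HasFDerivAt G (fderiv ℝ G (z + τ • u)) ((fun σ : ℝ => z + σ • u) τ) :=
      h4.hasFDerivAt
    exact h3.unique (h5.comp_hasDerivAt τ (hline τ))
  have hff : HasFDerivAt (fderiv ℝ G) (fderiv ℝ (fderiv ℝ G) z) ((fun σ : ℝ => z + σ • u) 0) := by
    rw [hz0]
    exact ((hG.fderiv_right (m := 1) (by norm_num)).differentiableAt (by norm_num)).hasFDerivAt
  have h6 : HasDerivAt (fun τ : ℝ => fderiv ℝ G (z + τ • u)) (fderiv ℝ (fderiv ℝ G) z u) 0 :=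
    hff.comp_hasDerivAt (0 : ℝ) (hline 0)
  have h7 : HasDerivAt (fun τ : ℝ => fderiv ℝ G (z + τ • u) u) (fderiv ℝ (fderiv ℝ G) z u u) 0 := by
    have := h6.clm_apply (hasDerivAt_const (0 : ℝ) u)
    simpa using this
  exact h7.unique (h2.congr_of_eventuallyEq (he.mono fun τ h => h.symm))

/-! ### The Laplacian of `F (log ‖Z‖² - c)` -/

section

variable {E : Type*} [NormedAddCommGroup E] [InnerProductSpace ℂ E] [CompleteSpace E]

attribute [local instance] InnerProductSpace.complexToReal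

lemma contDiffAt_logZ {Z : ℂ → E} {z : ℂ} (hZ : AnalyticAt ℂ Z z) (h0 : Z z ≠ 0) {F : ℝ → ℝ}
    (hF : ContDiff ℝ 2 F) (c : ℝ) :
    ContDiffAt ℝ 2 (fun w => F (Real.log (‖Z w‖ ^ 2) - c)) z := by
  have h1 : ContDiffAt ℝ 2 Z z := (hZ.restrictScalars (𝕜 := ℝ)).contDiffAt
  have h2 : ContDiffAt ℝ 2 (fun w => ‖Z w‖ ^ 2) z := h1.norm_sq ℂ
  have h3 : ContDiffAt ℝ 2 (fun w => Real.log (‖Z w‖ ^ 2) - c) z :=
    (h2.log (by simpa using h0)).sub contDiffAt_const
  exact hF.contDiffAt.comp z h3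

lemma line_lap {Z : ℂ → E} {z : ℂ} (hZ : AnalyticAt ℂ Z z) (h0 : Z z ≠ 0) {F : ℝ → ℝ}
    (hF : ContDiff ℝ 2 F) (c : ℝ) (u : ℂ) :
    fderiv ℝ (fderiv ℝ fun w => F (Real.log (‖Z w‖ ^ 2) - c)) z u u =
      deriv (deriv F) (Real.log (‖Z z‖ ^ 2) - c) *
          (2 * (inner ℂ (Z z) (u • deriv Z z)).re / ‖Z z‖ ^ 2) ^ 2 +
        deriv F (Real.log (‖Z z‖ ^ 2) - c) *
          ((2 * (‖u • deriv Z z‖ ^ 2 + (inner ℂ (Z z) (u • u • deriv (deriv Z) z)).re)) /
              ‖Z z‖ ^ 2 - (2 * (inner ℂ (Z z) (u • deriv Z z)).re / ‖Z z‖ ^ 2) ^ 2) := by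
  have hline : ∀ τ : ℝ, HasDerivAt (fun σ : ℝ => z + σ • u) u τ := by
    intro τ
    have := ((hasDerivAt_id τ).smul_const u).const_add z
    simpa using this
  have ht : Tendsto (fun σ : ℝ => z + σ • u) (𝓝 0) (𝓝 z) := by
    have h : Tendsto (fun σ : ℝ => z + σ • u) (𝓝 0) (𝓝 (z + (0 : ℝ) • u)) :=
      (hline 0).continuousAt.tendsto
    simpa using h
  -- derivative of `Z` along the line
  have hf : ∀ᶠ τ in 𝓝 (0 : ℝ), HasDerivAt (fun σ : ℝ => Z (z + σ • u))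
      (u • deriv Z (z + τ • u)) τ := by
    filter_upwards [ht.eventually hZ.eventually_analyticAt] with τ hτ
    have h1 : HasDerivAt Z (deriv Z (z + τ • u)) ((fun σ : ℝ => z + σ • u) τ) :=
      hτ.differentiableAt.hasDerivAt
    exact h1.scomp τ (hline τ)
  have hf0 : HasDerivAt (fun σ : ℝ => Z (z + σ • u)) (u • deriv Z z) 0 := by
    have := hf.self_of_nhds
    simpa using this
  have hf' : HasDerivAt (fun σ : ℝ => u • deriv Z (z + σ • u)) (u • u • deriv (deriv Z) z) 0 := by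
    have h1 : HasDerivAt (deriv Z) (deriv (deriv Z) z) ((fun σ : ℝ => z + σ • u) 0) := by
      simpa using hZ.deriv.differentiableAt.hasDerivAt
    exact (h1.scomp (0 : ℝ) (hline 0)).const_smul u
  -- `q = ‖Z‖²` along the line
  have hq : ∀ᶠ τ in 𝓝 (0 : ℝ), HasDerivAt (fun σ : ℝ => ‖Z (z + σ • u)‖ ^ 2)
      (2 * inner ℝ (Z (z + τ • u)) (u • deriv Z (z + τ • u))) τ := by
    filter_upwards [hf] with τ hτ
    exact hτ.norm_sq
  have hq0 : HasDerivAt (fun σ : ℝ => ‖Z (z + σ • u)‖ ^ 2)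
      (2 * inner ℝ (Z z) (u • deriv Z z)) 0 := by
    have := hq.self_of_nhds
    simpa using this
  have hq' : HasDerivAt (fun τ : ℝ => 2 * inner ℝ (Z (z + τ • u)) (u • deriv Z (z + τ • u)))
      (2 * (inner ℝ (Z z) (u • u • deriv (deriv Z) z) +
        inner ℝ (u • deriv Z z) (u • deriv Z z))) 0 := by
    have h1 := (hf0.inner ℝ hf').const_mul 2
    refine h1.congr_deriv ?_
    simp
  have hne : ∀ᶠ τ in 𝓝 (0 : ℝ), ‖Z (z + τ • u)‖ ^ 2 ≠ 0 := by
    have h1 : ∀ᶠ w in 𝓝 z, Z w ≠ 0 := hZ.continuousAt.eventually_ne h0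
    filter_upwards [ht.eventually h1] with τ hτ
    simpa using hτ
  have hn0 : ‖Z z‖ ^ 2 ≠ 0 := by simpa using h0
  -- first derivative
  have hF1 : Differentiable ℝ F := hF.differentiable (by norm_num)
  have hF2 : Differentiable ℝ (deriv F) := by
    have := hF
    rw [show (2 : WithTop ℕ∞) = 1 + 1 by norm_num, contDiff_succ_iff_deriv] at this
    exact this.2.2.differentiable (by norm_num)
  have hg : ∀ᶠ τ in 𝓝 (0 : ℝ), HasDerivAt
      (fun σ : ℝ => (fun w => F (Real.log (‖Z w‖ ^ 2) - c)) (z + σ • u))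
      (deriv F (Real.log (‖Z (z + τ • u)‖ ^ 2) - c) *
        ((2 * inner ℝ (Z (z + τ • u)) (u • deriv Z (z + τ • u))) / ‖Z (z + τ • u)‖ ^ 2)) τ := by
    filter_upwards [hq, hne] with τ h1 h2
    have h3 := (h1.log h2).sub_const c
    exact (hF1 _).hasDerivAt.comp τ h3
  have hlog : HasDerivAt (fun σ : ℝ => Real.log (‖Z (z + σ • u)‖ ^ 2) - c)
      ((2 * inner ℝ (Z z) (u • deriv Z z)) / ‖Z z‖ ^ 2) 0 := by
    have h2 := (hq0.log (by simpa using hn0)).sub_const c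
    simpa using h2
  have hg' : HasDerivAt (fun τ : ℝ => deriv F (Real.log (‖Z (z + τ • u)‖ ^ 2) - c) *
        ((2 * inner ℝ (Z (z + τ • u)) (u • deriv Z (z + τ • u))) / ‖Z (z + τ • u)‖ ^ 2))
      (deriv (deriv F) (Real.log (‖Z z‖ ^ 2) - c) *
          ((2 * inner ℝ (Z z) (u • deriv Z z)) / ‖Z z‖ ^ 2) *
          ((2 * inner ℝ (Z z) (u • deriv Z z)) / ‖Z z‖ ^ 2) +
        deriv F (Real.log (‖Z z‖ ^ 2) - c) *
          (((2 * (inner ℝ (Z z) (u • u • deriv (deriv Z) z) +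
            inner ℝ (u • deriv Z z) (u • deriv Z z))) * ‖Z z‖ ^ 2 -
            (2 * inner ℝ (Z z) (u • deriv Z z)) * (2 * inner ℝ (Z z) (u • deriv Z z))) /
              (‖Z z‖ ^ 2) ^ 2)) 0 := by
    have h1 : HasDerivAt (deriv F) (deriv (deriv F) (Real.log (‖Z z‖ ^ 2) - c))
        ((fun σ : ℝ => Real.log (‖Z (z + σ • u)‖ ^ 2) - c) 0) := by
      show HasDerivAt _ _ (Real.log (‖Z (z + (0 : ℝ) • u)‖ ^ 2) - c)
      rw [zero_smul, add_zero]
      exact (hF2 _).hasDerivAt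
    have h2 := h1.comp (0 : ℝ) hlog
    have h3 := hq'.div hq0 (by simpa using hn0)
    have h4 := h2.mul h3
    refine h4.congr_deriv ?_
    simp
  rw [second_deriv_line (contDiffAt_logZ hZ h0 hF c) u hg hg']
  have e1 : ∀ x y : E, inner ℝ x y = (inner ℂ x y).re := fun x y => real_inner_eq_re_inner ℂ x y
  rw [e1, e1, real_inner_self_eq_norm_sq]
  field_simp
  ring

/-- **The Laplacian formula.** -/
theorem lap_logZ {Z : ℂ → E} {z : ℂ} (hZ : AnalyticAt ℂ Z z) (h0 : Z z ≠ 0) {F : ℝ → ℝ}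
    (hF : ContDiff ℝ 2 F) (c : ℝ) :
    lap (fun w => F (Real.log (‖Z w‖ ^ 2) - c)) z =
      4 * (deriv (deriv F) (Real.log (‖Z z‖ ^ 2) - c) *
          (‖inner ℂ (Z z) (deriv Z z)‖ ^ 2 / (‖Z z‖ ^ 2) ^ 2) +
        deriv F (Real.log (‖Z z‖ ^ 2) - c) *
          (‖deriv Z z‖ ^ 2 / ‖Z z‖ ^ 2 - ‖inner ℂ (Z z) (deriv Z z)‖ ^ 2 / (‖Z z‖ ^ 2) ^ 2)) := by
  unfold lap
  rw [line_lap hZ h0 hF c 1, line_lap hZ h0 hF c Complex.I]
  have hn0 : ‖Z z‖ ^ 2 ≠ 0 := by simpa using h0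
  simp only [one_smul, inner_smul_right, norm_smul, Complex.norm_I, one_mul]
  have e1 : (Complex.I * inner ℂ (Z z) (deriv Z z)).re = - (inner ℂ (Z z) (deriv Z z)).im := by
    simp
  have e2 : (Complex.I * (Complex.I * inner ℂ (Z z) (deriv (deriv Z) z))).re =
      - (inner ℂ (Z z) (deriv (deriv Z) z)).re := by
    rw [← mul_assoc, Complex.I_mul_I]; simp
  have e3 : ‖inner ℂ (Z z) (deriv Z z)‖ ^ 2 =
      (inner ℂ (Z z) (deriv Z z)).re ^ 2 + (inner ℂ (Z z) (deriv Z z)).im ^ 2 := by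
    rw [← Complex.normSq_eq_norm_sq, Complex.normSq_apply]
    ring
  rw [e1, e2, e3]
  field_simp
  ring

end

end Pool.Agent.Nevan
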