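import Pool.Agent.Nevan.Singular

/-!
# Logarithmic growth of the Nevanlinna characteristic
-/

set_option linter.unusedSectionVars false

open scoped Manifold ContDiff Topology
open Set Metric Filter MeasureTheory Real

namespace Pool.Agent.Nevan

variable {E : Type*} [NormedAddCommGroup E] [NormedSpace ℂ E] [FiniteDimensional ℂ E]
  {M : Type*} [TopologicalSpace M] [ChartedSpace E M] [IsManifold 𝓘(ℂ, E) ω M]

/-- Finitely many local potentials suffice: a global differential inequality. -/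
lemma exists_potential [T2Space M] [CompactSpace M] (F : Foliation E M)
    (hlin : ∀ p ∈ F.sing, F.IsLinearizableAt p) (Ω : PositiveForm E M) :
    ∃ W : M → ℝ, ∃ C : ℝ, 0 < C ∧ (∀ y, 0 ≤ W y) ∧
      ∀ (a : M) (φ : ℂ → M), F.IsUniversalCovering a φ →
        ContDiffOn ℝ 2 (fun ξ => W (φ ξ)) (ball 0 1) ∧
        ∀ ξ ∈ ball (0 : ℂ) 1,
          lap (fun ξ => W (φ ξ)) ξ ≤ C * Ω.pullback φ ξ - 1 / (1 - ‖ξ‖ ^ 2) ^ 2 := by
  have hloc : ∀ x : M, LocalEstimate F Ω x := by
    intro x
    by_cases hx : x ∈ F.sing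
    · exact localEstimate_singular F Ω hx (hlin x hx)
    · exact localEstimate_regular F Ω hx
  choose U hU W C hC0 hW0 h using hloc
  obtain ⟨t, ht⟩ := CompactSpace.elim_nhds_subcover U hU
  refine ⟨fun y => ∑ x ∈ t, W x y, ∑ x ∈ t, C x + 1, ?_, ?_, fun a φ hφ => ⟨?_, ?_⟩⟩
  · have : 0 ≤ ∑ x ∈ t, C x := Finset.sum_nonneg fun x _ => hC0 x
    linarith
  · intro y
    exact Finset.sum_nonneg fun x _ => hW0 x y
  · exact ContDiffOn.sum fun x _ => (h x a φ hφ).1
  · intro ξ hξ
    have hpb := Ω.pullback_nonneg φ ξ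
    rw [lap_sum t (G := fun x ξ => W x (φ ξ)) fun x _ =>
      (h x a φ hφ).1.contDiffAt (isOpen_ball.mem_nhds hξ)]
    obtain ⟨x₀, hx₀t, hx₀⟩ : ∃ x ∈ t, φ ξ ∈ U x := by
      have h1 : φ ξ ∈ ⋃ x ∈ t, U x := by rw [ht]; trivial
      simpa using h1
    classical
    have h1 : ∀ x ∈ t, lap (fun ξ => W x (φ ξ)) ξ ≤
        C x * Ω.pullback φ ξ - if x = x₀ then 1 / (1 - ‖ξ‖ ^ 2) ^ 2 else 0 := by
      intro x _
      split_ifs with hx
      · subst hx
        exact ((h x a φ hφ).2 ξ hξ).2 hx₀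
      · rw [sub_zero]
        exact ((h x a φ hφ).2 ξ hξ).1
    refine (Finset.sum_le_sum h1).trans ?_
    rw [Finset.sum_sub_distrib, Finset.sum_ite_eq' t x₀, if_pos hx₀t, ← Finset.sum_mul]
    nlinarith

/-- The constant and the threshold. -/
theorem nevanlinna_growth [T2Space M] [CompactSpace M] (F : Foliation E M)
    (hlin : ∀ p ∈ F.sing, F.IsLinearizableAt p) (Ω : PositiveForm E M) :
    ∃ c : ℝ, 0 < c ∧ ∀ (a : M) (φ : ℂ → M), F.IsUniversalCovering a φ →
      ∃ r₀ : ℝ, 0 < r₀ ∧ r₀ < 1 ∧ ∀ r : ℝ, r₀ < r → r < 1 →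
        c * Real.log (1 / (1 - r)) ≤ Ω.nevanlinna φ r := by
  have hE : CompleteSpace E := FiniteDimensional.complete ℂ E
  obtain ⟨W, C, hC, hW, h⟩ := exists_potential F hlin Ω
  refine ⟨π / (4 * C), by positivity, fun a φ hφ => ?_⟩
  obtain ⟨hWc, hWlap⟩ := h a φ hφ
  set G : ℂ → ℝ := fun ξ => W (φ ξ) + discPot ξ with hGdef
  have hdisc : ContDiffOn ℝ 2 discPot (ball 0 1) := fun z hz =>
    (contDiffAt_discPot hz).contDiffWithinAt
  have hG : ContDiffOn ℝ 2 G (ball 0 1) := hWc.add hdisc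
  have hn : ContinuousOn (fun z => C * Ω.pullback φ z) (ball 0 1) :=
    continuousOn_const.mul (Ω.continuousOn_pullback fun z hz => (hφ.tangent z hz).1)
  have hle : ∀ z ∈ ball (0 : ℂ) 1, lap G z ≤ C * Ω.pullback φ z := by
    intro z hz
    rw [hGdef, lap_add (hWc.contDiffAt (isOpen_ball.mem_nhds hz)) (contDiffAt_discPot hz),
      lap_discPot hz]
    have := hWlap z hz
    linarith
  -- the threshold
  set K : ℝ := 2 * (Real.log 2 + 4 * |G 0|) with hK
  have hK0 : 0 < K := by
    have := Real.log_pos one_lt_two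
    positivity
  have hexpK : Real.exp (-K) < 1 := by
    rw [← Real.exp_zero]
    exact Real.exp_lt_exp.mpr (by linarith)
  refine ⟨1 - Real.exp (-K), by linarith, ?_, fun r hr hr1 => ?_⟩
  · have := Real.exp_pos (-K)
    linarith
  have hr0 : 0 < r := by linarith
  have h1r : 0 < 1 - r := by linarith
  have hlogK : K ≤ Real.log (1 / (1 - r)) := by
    rw [one_div, Real.log_inv]
    have h2 : 1 - r < Real.exp (-K) := by linarith
    have h3 := Real.log_lt_log h1r h2
    rw [Real.log_exp] at h3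
    linarith
  have hJ := jensen_ineq hG hn hle hr0.le hr1
  -- the right-hand side
  have hrhs : ∫ t in (0:ℝ)..r, (1 / t) * ∫ z in ball (0 : ℂ) t, C * Ω.pullback φ z =
      C * Ω.nevanlinna φ r := by
    unfold PositiveForm.nevanlinna
    rw [← intervalIntegral.integral_const_mul]
    congr 1
    funext t
    rw [integral_const_mul]
    ring
  rw [hrhs] at hJ
  -- the left-hand side
  have hGcont : ContinuousOn (fun θ => G (pt r θ) - G 0) (uIcc (-π) π) := by
    refine ContinuousOn.sub ?_ continuousOn_const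
    refine hG.continuousOn.comp (f := fun θ : ℝ => pt r θ) ?_ ?_
    · exact (continuous_pt.comp (by fun_prop : Continuous fun θ : ℝ => (r, θ))).continuousOn
    · intro θ _
      exact pt_mem_ball (by rw [abs_of_pos hr0]; exact hr1)
  have hlhs : (2 * π) * (-(1 / 4) * Real.log (1 - r ^ 2) - G 0) ≤
      ∫ θ in (-π)..π, (G (pt r θ) - G 0) := by
    have h2 : (2 * π) * (-(1 / 4) * Real.log (1 - r ^ 2) - G 0) =
        ∫ _θ in (-π)..π, (-(1 / 4) * Real.log (1 - r ^ 2) - G 0) := by
      rw [intervalIntegral.integral_const, smul_eq_mul]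
      ring
    rw [h2]
    apply intervalIntegral.integral_mono_on (by linarith [Real.pi_pos])
      intervalIntegrable_const hGcont.intervalIntegrable
    intro θ _
    have h3 : G (pt r θ) = W (φ (pt r θ)) + -(1 / 4) * Real.log (1 - r ^ 2) := by
      rw [hGdef]
      simp only [discPot]
      rw [norm_pt, abs_of_pos hr0]
    rw [h3]
    have := hW (φ (pt r θ))
    linarith
  have hlog2 : Real.log (1 - r ^ 2) ≤ Real.log 2 - Real.log (1 / (1 - r)) := by
    have h2 : 1 - r ^ 2 ≤ 2 * (1 - r) := by nlinarith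
    have h3 : 0 < 1 - r ^ 2 := by nlinarith
    have h4 := Real.log_le_log h3 h2
    rw [Real.log_mul (by norm_num) h1r.ne'] at h4
    rw [one_div, Real.log_inv]
    linarith
  have hG0 : G 0 ≤ |G 0| := le_abs_self _
  set L := Real.log (1 / (1 - r)) with hL
  have hfin : π / 4 * L ≤ C * Ω.nevanlinna φ r := by
    refine le_trans ?_ (hlhs.trans hJ)
    have h5 : 1 / 8 * L ≤ -(1 / 4) * Real.log (1 - r ^ 2) - G 0 := by
      rw [hK] at hlogK
      linarith
    have h6 := mul_le_mul_of_nonneg_left h5 (by positivity : 0 ≤ 2 * π)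
    linarith
  rw [div_mul_eq_mul_div, div_le_iff₀ (by positivity)]
  linarith

end Pool.Agent.Nevan
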