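import Pool.Agent.Nevan.Lifting
import Pool.Agent.Nevan.LapBasic

/-!
# The local estimate near a regular point
-/

set_option linter.unusedSectionVars false

open scoped Manifold ContDiff Topology
open Set Metric Filter

namespace Pool.Agent.Nevan

variable {E : Type*} [NormedAddCommGroup E] [NormedSpace ℂ E] [FiniteDimensional ℂ E]
  {M : Type*} [TopologicalSpace M] [ChartedSpace E M] [IsManifold 𝓘(ℂ, E) ω M]

/-- The local estimate: there are a neighbourhood `U` of `x`, a function `W ≥ 0` and a constant `C`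
such that for all universal coverings `φ` of leaves `Δ(W ∘ φ) ≤ C φ^*Ω` everywhere and
`Δ(W ∘ φ) ≤ C φ^*Ω - (1 - |ξ|²)^{-2}` where `φ(ξ) ∈ U`. -/
def LocalEstimate (F : Foliation E M) (Ω : PositiveForm E M) (x : M) : Prop :=
  ∃ U ∈ 𝓝 x, ∃ W : M → ℝ, ∃ C : ℝ, 0 ≤ C ∧ (∀ y, 0 ≤ W y) ∧
    ∀ (a : M) (φ : ℂ → M), F.IsUniversalCovering a φ →
      ContDiffOn ℝ 2 (fun ξ => W (φ ξ)) (ball 0 1) ∧
      ∀ ξ ∈ ball (0 : ℂ) 1, lap (fun ξ => W (φ ξ)) ξ ≤ C * Ω.pullback φ ξ ∧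
        (φ ξ ∈ U → lap (fun ξ => W (φ ξ)) ξ ≤ C * Ω.pullback φ ξ - 1 / (1 - ‖ξ‖ ^ 2) ^ 2)

/-- A curve in a chart, with the right derivative, is a tangent disc. -/
lemma isTangentDisc_of_chart {F : Foliation E M} {e : OpenPartialHomeomorph M E}
    (he : e ∈ holCharts E M) {c : ℂ → E} {c' : ℂ → E}
    (hc : ∀ z ∈ ball (0 : ℂ) 1, HasDerivAt c (c' z) z)
    (hct : ∀ z ∈ ball (0 : ℂ) 1, c z ∈ e.target)
    (hreg : ∀ z ∈ ball (0 : ℂ) 1, e.symm (c z) ∉ F.sing)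
    (hdir : ∀ z ∈ ball (0 : ℂ) 1, c' z ∈ F.dir e (e.symm (c z))) :
    F.IsTangentDisc fun z => e.symm (c z) := by
  intro z hz
  have h1 := holAt_symm_comp he (hc z hz) (hct z hz)
  have h2 := velocity_symm (hc z hz) (hct z hz)
  have hs : e.symm (c z) ∈ e.source := e.map_target (hct z hz)
  refine ⟨h1, hreg z hz, fun e' he' hs' => ?_⟩
  have h3 := velocity_change (φ := fun z => e.symm (c z)) he he' h1 hs hs'
  rw [h3, h2]
  exact F.change_mem e he e' he' _ hs hs' _ (hdir z hz)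

/-- If `φ'(ξ)` is `μ u` in a chart and a tangent disc `ψ` with `ψ(0) = φ(ξ)` has velocity `δ u`, then
`|δ| ≤ |μ| (1 - |ξ|²)`. -/
lemma le_mul_of_tangentDisc {F : Foliation E M} {a : M} {φ : ℂ → M}
    (hφ : F.IsUniversalCovering a φ) {ξ : ℂ} (hξ : ξ ∈ ball (0 : ℂ) 1) {ψ : ℂ → M}
    (hψ : F.IsTangentDisc ψ) (h0 : ψ 0 = φ ξ) {e : OpenPartialHomeomorph M E}
    (he : e ∈ holCharts E M) (hs : φ ξ ∈ e.source) {u : E} {μ δ : ℂ}
    (hμ : velocity e φ ξ = μ • u) (hδ : velocity e ψ 0 = δ • u) :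
    ‖δ‖ ≤ ‖μ‖ * (1 - ‖ξ‖ ^ 2) := by
  have hE : CompleteSpace E := FiniteDimensional.complete ℂ E
  have hμ0 : μ ≠ 0 := by
    intro h
    apply hφ.immersion ξ hξ e he hs
    rw [hμ, h, zero_smul]
  have h2 : velocity e ψ 0 = (δ / μ) • velocity e φ ξ := by
    rw [hδ, hμ, smul_smul, div_mul_cancel₀ _ hμ0]
  have h3 : ψ 0 ∈ e.source := by rw [h0]; exact hs
  have h1 := norm_le_of_tangentDisc hφ hξ hψ h0 he h3 h2
  rw [norm_div, div_le_iff₀ (norm_pos_iff.mpr hμ0)] at h1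
  linarith

lemma exists_smul_of_mem_span {v x : E} {r : ℝ} (hr : 0 < r)
    (hx : x ∈ Submodule.span ℂ {v}) : ∃ μ : ℂ, x = μ • ((r : ℂ) • v) := by
  obtain ⟨b, hb⟩ := Submodule.mem_span_singleton.mp hx
  refine ⟨b * (r : ℂ)⁻¹, ?_⟩
  rw [smul_smul, mul_assoc, inv_mul_cancel₀ (by exact_mod_cast hr.ne'), mul_one, hb]

theorem localEstimate_regular (F : Foliation E M) (Ω : PositiveForm E M) {x : M}
    (hx : x ∉ F.sing) : LocalEstimate F Ω x := by
  have hprop : ProperSpace E := FiniteDimensional.proper ℂ E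
  obtain ⟨e, he, hxe, v, hv, hve⟩ := F.foliated x hx
  obtain ⟨R', hR', hball'⟩ := Metric.isOpen_iff.mp e.open_target (e x) (e.map_source hxe)
  set R := R' / 4 with hRdef
  have hR : 0 < R := by positivity
  have hball : closedBall (e x) (2 * R) ⊆ e.target := by
    refine (closedBall_subset_ball ?_).trans hball'
    rw [hRdef]; linarith
  obtain ⟨m, hm, hmle⟩ := Ω.exists_lower_bound he (isCompact_closedBall (e x) (2 * R)) hball
  have hmR0 : 0 ≤ 1 / (m * R ^ 2) := one_div_nonneg.mpr (mul_pos hm (pow_pos hR 2)).le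
  refine ⟨e.source ∩ e ⁻¹' ball (e x) R, ?_, fun _ => 0, 1 / (m * R ^ 2), hmR0,
    fun _ => le_rfl, fun a φ hφ => ⟨contDiffOn_const, fun ξ hξ => ?_⟩⟩
  · exact (e.isOpen_inter_preimage isOpen_ball).mem_nhds ⟨hxe, mem_ball_self hR⟩
  have hvn : 0 < ‖v‖ := norm_pos_iff.mpr hv
  have hpb := Ω.pullback_nonneg φ ξ
  rw [lap_zero]
  have hmR : 0 < m * R ^ 2 := mul_pos hm (pow_pos hR 2)
  refine ⟨mul_nonneg (one_div_nonneg.mpr hmR.le) hpb, fun hU => ?_⟩
  obtain ⟨hs, hb⟩ := hU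
  have hb' : e (φ ξ) ∈ ball (e x) R := hb
  set u : E := ((R / ‖v‖ : ℝ) : ℂ) • v with hu
  have hun : ‖u‖ = R := by
    rw [hu, norm_smul, Complex.norm_real, Real.norm_of_nonneg (by positivity)]
    field_simp
  -- the tangent disc
  have hc : ∀ z ∈ ball (0 : ℂ) 1, HasDerivAt (fun z : ℂ => e (φ ξ) + z • u) ((1 : ℂ) • u) z := by
    intro z _
    exact ((hasDerivAt_id z).smul_const u).const_add _
  have hct : ∀ z ∈ ball (0 : ℂ) 1, e (φ ξ) + z • u ∈ e.target := by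
    intro z hz
    apply hball
    rw [mem_closedBall, dist_eq_norm]
    have h1 : ‖e (φ ξ) - e x‖ < R := by rw [← dist_eq_norm]; exact hb'
    have h2 : ‖z • u‖ ≤ R := by
      rw [norm_smul, hun]
      have : ‖z‖ < 1 := mem_ball_zero_iff.mp hz
      nlinarith
    calc ‖e (φ ξ) + z • u - e x‖ = ‖(e (φ ξ) - e x) + z • u‖ := by congr 1; abel
      _ ≤ ‖e (φ ξ) - e x‖ + ‖z • u‖ := norm_add_le _ _
      _ ≤ 2 * R := by linarith
  have huspan : u ∈ Submodule.span ℂ {v} :=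
    Submodule.smul_mem _ _ (Submodule.mem_span_singleton_self v)
  have hψ : F.IsTangentDisc fun z => e.symm (e (φ ξ) + z • u) := by
    refine isTangentDisc_of_chart (c := fun z => e (φ ξ) + z • u) (c' := fun _ => (1 : ℂ) • u)
      he hc hct ?_ ?_
    · intro z hz
      exact (hve _ (e.map_target (hct z hz))).1
    · intro z hz
      rw [(hve _ (e.map_target (hct z hz))).2, one_smul]
      exact huspan
  have h00 : (0 : ℂ) ∈ ball (0 : ℂ) 1 := mem_ball_self one_pos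
  have h0 : e.symm (e (φ ξ) + (0 : ℂ) • u) = φ ξ := by
    rw [zero_smul, add_zero]
    exact e.left_inv hs
  have hδ : velocity e (fun z => e.symm (e (φ ξ) + z • u)) 0 = (1 : ℂ) • u :=
    velocity_symm (c := fun z => e (φ ξ) + z • u) (z := 0) (hc 0 h00) (hct 0 h00)
  -- the velocity of `φ`
  obtain ⟨μ, hμ⟩ : ∃ μ : ℂ, velocity e φ ξ = μ • u := by
    have h1 := (hφ.tangent ξ hξ).2.2 e he hs
    rw [(hve _ hs).2] at h1
    exact exists_smul_of_mem_span (div_pos hR hvn) h1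
  have hle := le_mul_of_tangentDisc hφ hξ hψ h0 he hs hμ hδ
  rw [norm_one] at hle
  have hpos := one_sub_normSq_pos hξ
  have h2 : m * ‖μ • u‖ ^ 2 ≤ Ω.pullback φ ξ := by
    rw [← hμ, Ω.pullback_eq he (hφ.tangent ξ hξ).1 hs]
    apply hmle _ hs
    exact ball_subset_closedBall (ball_subset_ball (by linarith) hb')
  have h3 : 1 / (1 - ‖ξ‖ ^ 2) ^ 2 ≤ ‖μ‖ ^ 2 := by
    rw [div_le_iff₀ (by positivity)]
    nlinarith [norm_nonneg μ]
  have h4 : ‖μ • u‖ ^ 2 = ‖μ‖ ^ 2 * R ^ 2 := by rw [norm_smul, hun, mul_pow]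
  rw [h4] at h2
  have h5 : ‖μ‖ ^ 2 ≤ 1 / (m * R ^ 2) * Ω.pullback φ ξ := by
    rw [div_mul_eq_mul_div, one_mul, le_div_iff₀ (by positivity)]
    linarith
  linarith

end Pool.Agent.Nevan
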