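import Pool.Agent.Nevan.Regular
import Pool.Agent.Nevan.LinearDisc

/-!
# The local estimate near a linearizable singularity
-/

set_option linter.unusedSectionVars false

open scoped Manifold ContDiff Topology
open Set Metric Filter

namespace Pool.Agent.Nevan

/-! ### Numerical inequalities -/

lemma num_mid {C f g x y : ℝ} (hf : |f| ≤ C) (hg : |g| ≤ C) (hy : 0 ≤ y) (hyx : y ≤ x) :
    4 * (f * y + g * (x - y)) ≤ 4 * C * x := by
  have h1 : f ≤ C := (le_abs_self f).trans hf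
  have h2 : g ≤ C := (le_abs_self g).trans hg
  have h3 : f * y ≤ C * y := mul_le_mul_of_nonneg_right h1 hy
  have h4 : g * (x - y) ≤ C * (x - y) := mul_le_mul_of_nonneg_right h2 (by linarith)
  nlinarith

lemma num_far_neg {x y t : ℝ} (hyx : y ≤ x) (ht : t < -1) :
    4 * (-(1 / (2 - t) ^ 2) * y + -(1 / (2 - t)) * (x - y)) ≤ -(4 * x / (2 - t) ^ 2) := by
  have hs : 1 < 2 - t := by linarith
  have h1 : 1 / (2 - t) ^ 2 ≤ 1 / (2 - t) := by
    apply one_div_le_one_div_of_le (by linarith)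
    nlinarith
  have h2 : 1 / (2 - t) ^ 2 * (x - y) ≤ 1 / (2 - t) * (x - y) :=
    mul_le_mul_of_nonneg_right h1 (by linarith)
  have h3 : 4 * x / (2 - t) ^ 2 = 4 * (1 / (2 - t) ^ 2 * x) := by ring
  rw [h3]
  nlinarith

lemma num_far {α α' b μ x t : ℝ} (hα : 0 < α) (hα' : 0 < α') (hb : 0 < b) (ht : t < -1)
    (hμ : -t / (4 * α) ≤ μ * b) (hx : (μ / α') ^ 2 ≤ x) :
    4 * (1 / (12 * α * α')) ^ 2 / b ^ 2 ≤ 4 * x / (2 - t) ^ 2 := by
  have hs : 0 < 2 - t := by linarith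
  have h1 : (2 - t) / (12 * α * b) ≤ μ := by
    rw [div_le_iff₀ (by positivity)]
    rw [div_le_iff₀ (by positivity)] at hμ
    nlinarith
  have h2 : (2 - t) / (12 * α * b) / α' ≤ μ / α' := div_le_div_of_nonneg_right h1 hα'.le
  have h3 : ((2 - t) / (12 * α * b) / α') ^ 2 ≤ (μ / α') ^ 2 :=
    pow_le_pow_left₀ (by positivity) h2 2
  have h4 : 4 * (1 / (12 * α * α')) ^ 2 / b ^ 2 =
      4 * ((2 - t) / (12 * α * b) / α') ^ 2 / (2 - t) ^ 2 := by
    field_simp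
  rw [h4]
  apply div_le_div_of_nonneg_right _ (by positivity)
  linarith

variable {E : Type*} [NormedAddCommGroup E] [NormedSpace ℂ E] [FiniteDimensional ℂ E]
  {M : Type*} [TopologicalSpace M] [ChartedSpace E M] [IsManifold 𝓘(ℂ, E) ω M]
  {H : Type*} [NormedAddCommGroup H] [InnerProductSpace ℂ H] [FiniteDimensional ℂ H]

/-- the potential near a singularity -/
noncomputable def pot (e : OpenPartialHomeomorph M E) (L : E ≃L[ℂ] H) (R : ℝ) (y : M) : ℝ := by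
  classical
  exact if y ∈ e.source then Fcut (Real.log (‖L (e y)‖ ^ 2) - Real.log (R ^ 2)) else 0

lemma pot_of_mem {e : OpenPartialHomeomorph M E} {L : E ≃L[ℂ] H} {R : ℝ} {y : M}
    (hy : y ∈ e.source) :
    pot e L R y = Fcut (Real.log (‖L (e y)‖ ^ 2) - Real.log (R ^ 2)) := by
  unfold pot
  rw [if_pos hy]

lemma pot_nonneg (e : OpenPartialHomeomorph M E) (L : E ≃L[ℂ] H) (R : ℝ) (y : M) :
    0 ≤ pot e L R y := by
  unfold pot
  split_ifs
  · exact Fcut_nonneg _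
  · exact le_rfl

lemma isCompact_lball (L : E ≃L[ℂ] H) (R : ℝ) : IsCompact {z : E | ‖L z‖ ≤ R} := by
  have hprop : ProperSpace H := FiniteDimensional.proper ℂ H
  have h1 : {z : E | ‖L z‖ ≤ R} = L.symm '' closedBall (0 : H) R := by
    ext z
    constructor
    · intro hz
      exact ⟨L z, mem_closedBall_zero_iff.mpr hz, L.symm_apply_apply z⟩
    · rintro ⟨w, hw, rfl⟩
      show ‖L (L.symm w)‖ ≤ R
      rw [L.apply_symm_apply]
      exact mem_closedBall_zero_iff.mp hw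
  rw [h1]
  exact (isCompact_closedBall (0 : H) R).image L.symm.continuous

lemma pot_eq_zero {e : OpenPartialHomeomorph M E} {L : E ≃L[ℂ] H} {R : ℝ} (hR : 0 < R) {y : M}
    (hy : y ∉ e.symm '' {z : E | ‖L z‖ ≤ R}) : pot e L R y = 0 := by
  unfold pot
  split_ifs with h
  · apply Fcut_of_nonneg
    have h1 : ¬ ‖L (e y)‖ ≤ R := by
      intro h2
      exact hy ⟨e y, h2, e.left_inv h⟩
    rw [not_le] at h1
    have h2 : R ^ 2 ≤ ‖L (e y)‖ ^ 2 := pow_le_pow_left₀ hR.le h1.le 2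
    have := Real.log_le_log (by positivity) h2
    linarith
  · rfl

lemma pot_eventually_of_mem {e : OpenPartialHomeomorph M E} {L : E ≃L[ℂ] H} {R : ℝ} {φ : ℂ → M}
    {ξ : ℂ} (hφ : ContinuousAt φ ξ) (h : φ ξ ∈ e.source) :
    (fun w => pot e L R (φ w)) =ᶠ[𝓝 ξ]
      fun w => Fcut (Real.log (‖(fun w => L (e (φ w))) w‖ ^ 2) - Real.log (R ^ 2)) := by
  filter_upwards [hφ.preimage_mem_nhds (e.open_source.mem_nhds h)] with w hw
  exact pot_of_mem hw

lemma pot_eventually_of_notMem [T2Space M] {e : OpenPartialHomeomorph M E} {L : E ≃L[ℂ] H} {R : ℝ}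
    (hR : 0 < R) (hball : ∀ z : E, ‖L z‖ ≤ R → z ∈ e.target) {φ : ℂ → M} {ξ : ℂ}
    (hφ : ContinuousAt φ ξ) (h : φ ξ ∉ e.source) :
    (fun w => pot e L R (φ w)) =ᶠ[𝓝 ξ] fun _ => 0 := by
  have hK : IsCompact (e.symm '' {z : E | ‖L z‖ ≤ R}) :=
    (isCompact_lball L R).image_of_continuousOn (e.continuousOn_symm.mono hball)
  have hn : φ ξ ∉ e.symm '' {z : E | ‖L z‖ ≤ R} := by
    rintro ⟨z, hz, hze⟩
    apply h
    rw [← hze]
    exact e.map_target (hball z hz)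
  have hopen : IsOpen (e.symm '' {z : E | ‖L z‖ ≤ R})ᶜ := hK.isClosed.isOpen_compl
  filter_upwards [hφ.preimage_mem_nhds (hopen.mem_nhds hn)] with w hw
  exact pot_eq_zero hR hw

omit [FiniteDimensional ℂ E] [IsManifold 𝓘(ℂ, E) ω M] in
lemma ne_zero_of_ne {e : OpenPartialHomeomorph M E} {p : M} (hpe : p ∈ e.source)
    (hep : e p = 0) {y : M} (hy : y ∈ e.source) (hyp : y ≠ p) : e y ≠ 0 := by
  intro h
  apply hyp
  apply e.injOn hy hpe
  rw [h, hep]

/-- Near a linearizable singularity the discs tangent to the foliation are large: comparison with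
the linear discs `τ ↦ exp(τ δ B) z`. -/
lemma singular_speed {F : Foliation E M} {p : M} {e : OpenPartialHomeomorph M E}
    (he : e ∈ holCharts E M) (hpe : p ∈ e.source) (hep : e p = 0)
    {A : E → E} (hA : ∀ y ∈ e.source, y ≠ p → y ∉ F.sing ∧
      F.dir e y = Submodule.span ℂ {A (e y)}) {L : E ≃L[ℂ] H} {B : H →L[ℂ] H}
    (hAB : ∀ z, A z = L.symm (B (L z)))
    {R : ℝ} (hR : 0 < R) (hball : ∀ z : E, ‖L z‖ ≤ R → z ∈ e.target) {a : M} {φ : ℂ → M}
    (hφ : F.IsUniversalCovering a φ) {ξ : ℂ} (hξ : ξ ∈ ball (0 : ℂ) 1) (hs : φ ξ ∈ e.source)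
    (hne : φ ξ ≠ p) (ht : Real.log (‖L (e (φ ξ))‖ ^ 2) - Real.log (R ^ 2) < 0) {μ : ℂ}
    (hμ : velocity e φ ξ = μ • A (e (φ ξ))) :
    -(Real.log (‖L (e (φ ξ))‖ ^ 2) - Real.log (R ^ 2)) / (4 * (‖B‖ + 1)) ≤
      ‖μ‖ * (1 - ‖ξ‖ ^ 2) := by
  have hH : CompleteSpace H := FiniteDimensional.complete ℂ H
  set t := Real.log (‖L (e (φ ξ))‖ ^ 2) - Real.log (R ^ 2) with htdef
  set z := L (e (φ ξ)) with hz
  have hz0 : z ≠ 0 := by
    intro h
    apply ne_zero_of_ne hpe hep hs hne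
    apply L.injective
    rw [← hz, h, map_zero]
  have hA0 : 0 ≤ ‖B‖ := norm_nonneg B
  set δ : ℝ := -t / (4 * (‖B‖ + 1)) with hδdef
  have hδ : 0 ≤ δ := div_nonneg (by linarith) (by linarith)
  obtain ⟨c, hc0, hcd, hcne, hcb⟩ := exists_linear_disc B hδ hz0
  have hδA : δ * ‖B‖ ≤ -t / 4 := by
    rw [hδdef, div_mul_eq_mul_div, div_le_div_iff₀ (by linarith) (by norm_num)]
    nlinarith
  have hzsq : ‖z‖ ^ 2 = R ^ 2 * Real.exp t := by
    have h1 : 0 < ‖z‖ ^ 2 := pow_pos (norm_pos_iff.mpr hz0) 2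
    have h2 : 0 < R ^ 2 := pow_pos hR 2
    have h3 : t + Real.log (R ^ 2) = Real.log (‖z‖ ^ 2) := by rw [htdef]; ring
    have h4 : R ^ 2 * Real.exp t = Real.exp (Real.log (‖z‖ ^ 2)) := by
      rw [← h3, Real.exp_add, Real.exp_log h2]; ring
    rw [h4, Real.exp_log h1]
  have hin : ∀ τ ∈ ball (0 : ℂ) 1, ‖c τ‖ ≤ R := by
    intro τ hτ
    refine (hcb τ hτ).trans ?_
    rw [← abs_of_pos hR, ← abs_of_nonneg
      (mul_nonneg (Real.exp_pos (δ * ‖B‖)).le (norm_nonneg z)), ← sq_le_sq, mul_pow, hzsq]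
    have h4 : Real.exp (δ * ‖B‖) ^ 2 * (R ^ 2 * Real.exp t) =
        R ^ 2 * Real.exp (2 * (δ * ‖B‖) + t) := by
      rw [Real.exp_add, two_mul, Real.exp_add]; ring
    rw [h4]
    have h5 : Real.exp (2 * (δ * ‖B‖) + t) ≤ 1 := Real.exp_le_one_iff.mpr (by linarith)
    have h6 : 0 ≤ R ^ 2 := by positivity
    nlinarith
  have hct : ∀ τ ∈ ball (0 : ℂ) 1, L.symm (c τ) ∈ e.target := fun τ hτ => hball _ (by
    rw [L.apply_symm_apply]; exact hin τ hτ)
  have hnep : ∀ τ ∈ ball (0 : ℂ) 1, e.symm (L.symm (c τ)) ≠ p := by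
    intro τ hτ h
    apply hcne τ
    have h1 : L.symm (c τ) = 0 := by rw [← e.right_inv (hct τ hτ), h, hep]
    rw [← L.apply_symm_apply (c τ), h1, map_zero]
  have hcd' : ∀ τ, HasDerivAt (fun τ => L.symm (c τ)) ((δ : ℂ) • A (L.symm (c τ))) τ := by
    intro τ
    have h1 := ((L.symm : H →L[ℂ] E).hasFDerivAt (x := c τ)).comp_hasDerivAt τ (hcd τ)
    refine h1.congr_deriv ?_
    rw [hAB, L.apply_symm_apply, map_smul]
    rfl
  have hψ : F.IsTangentDisc fun τ => e.symm (L.symm (c τ)) := by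
    refine isTangentDisc_of_chart (c := fun τ => L.symm (c τ))
      (c' := fun τ => (δ : ℂ) • A (L.symm (c τ))) he (fun τ _ => hcd' τ) hct ?_ ?_
    · intro τ hτ
      exact (hA _ (e.map_target (hct τ hτ)) (hnep τ hτ)).1
    · intro τ hτ
      rw [(hA _ (e.map_target (hct τ hτ)) (hnep τ hτ)).2, e.right_inv (hct τ hτ)]
      exact Submodule.smul_mem _ _ (Submodule.mem_span_singleton_self _)
  have h00 : (0 : ℂ) ∈ ball (0 : ℂ) 1 := mem_ball_self one_pos
  have h0' : L.symm (c 0) = e (φ ξ) := by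
    rw [hc0, hz, L.symm_apply_apply]
  have h0 : e.symm (L.symm (c 0)) = φ ξ := by
    rw [h0']
    exact e.left_inv hs
  have hδ' : velocity e (fun τ => e.symm (L.symm (c τ))) 0 = (δ : ℂ) • A (e (φ ξ)) := by
    have := velocity_symm (c := fun τ => L.symm (c τ)) (z := 0) (hcd' 0) (hct 0 h00)
    rw [this, h0']
  have hle := le_mul_of_tangentDisc (ψ := fun τ => e.symm (L.symm (c τ))) hφ hξ hψ h0 he hs hμ hδ'
  rw [Complex.norm_real, Real.norm_of_nonneg hδ] at hle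
  exact hle

theorem localEstimate_singular_aux [T2Space M] (F : Foliation E M) (Ω : PositiveForm E M) {p : M}
    (hp : p ∈ F.sing) {e : OpenPartialHomeomorph M E}
    (he : e ∈ holCharts E M) (hpe : p ∈ e.source) (hep : e p = 0)
    {A : E → E} (hA : ∀ y ∈ e.source, y ≠ p → y ∉ F.sing ∧
      F.dir e y = Submodule.span ℂ {A (e y)}) (L : E ≃L[ℂ] H) (B : H ≃L[ℂ] H)
    (hAB : ∀ z, A z = L.symm (B (L z))) : LocalEstimate F Ω p := by
  have hE : CompleteSpace E := FiniteDimensional.complete ℂ E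
  have hH : CompleteSpace H := FiniteDimensional.complete ℂ H
  -- a ball contained in the chart
  obtain ⟨R, hR, hball⟩ : ∃ R : ℝ, 0 < R ∧ ∀ z : E, ‖L z‖ ≤ R → z ∈ e.target := by
    have h1 : IsOpen (L.symm ⁻¹' e.target) := e.open_target.preimage L.symm.continuous
    obtain ⟨R', hR', hball'⟩ := Metric.isOpen_iff.mp h1 0 (by
      show L.symm 0 ∈ e.target
      rw [map_zero, ← hep]; exact e.map_source hpe)
    refine ⟨R' / 2, by positivity, fun z hz => ?_⟩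
    have h2 : L z ∈ ball (0 : H) R' := by
      rw [mem_ball_zero_iff]
      linarith
    have h3 := hball' h2
    change L.symm (L z) ∈ e.target at h3
    rwa [L.symm_apply_apply] at h3
  obtain ⟨m₀, hm₀, hmle₀⟩ := Ω.exists_lower_bound he (isCompact_lball L R) hball
  -- the metric dominates the norm of `H`
  obtain ⟨m, hm, hmle⟩ : ∃ m : ℝ, 0 < m ∧ ∀ x ∈ e.source, ‖L (e x)‖ ≤ R → ∀ u : E,
      m * ‖L u‖ ^ 2 ≤ Ω.sq e x u := by
    refine ⟨m₀ / (‖(L : E →L[ℂ] H)‖ + 1) ^ 2, by positivity, fun x hx hxR u => ?_⟩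
    refine le_trans ?_ (hmle₀ x hx hxR u)
    have h1 : ‖L u‖ ≤ (‖(L : E →L[ℂ] H)‖ + 1) * ‖u‖ := by
      have h2 : ‖L u‖ ≤ ‖(L : E →L[ℂ] H)‖ * ‖u‖ := (L : E →L[ℂ] H).le_opNorm u
      nlinarith [norm_nonneg u]
    have h3 : ‖L u‖ ^ 2 ≤ ((‖(L : E →L[ℂ] H)‖ + 1) * ‖u‖) ^ 2 :=
      pow_le_pow_left₀ (norm_nonneg _) h1 2
    rw [div_mul_eq_mul_div, div_le_iff₀ (by positivity)]
    rw [mul_pow] at h3
    nlinarith
  obtain ⟨C₁, hC₁, hF⟩ := exists_bound_Fcut
  -- constants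
  set α : ℝ := ‖(B : H →L[ℂ] H)‖ + 1 with hα
  set α' : ℝ := ‖(B.symm : H →L[ℂ] H)‖ + 1 with hα'
  have hα0 : 0 < α := by positivity
  have hα'0 : 0 < α' := by positivity
  set c₀ : ℝ := 4 * (1 / (12 * α * α')) ^ 2 with hc₀
  have hc₀0 : 0 < c₀ := by positivity
  set C₂ : ℝ := 4 * C₁ * Real.exp 1 / (R ^ 2 * m) with hC₂
  have hC₂0 : 0 ≤ C₂ := by positivity
  -- the basic estimate
  have main : ∀ (a : M) (φ : ℂ → M), F.IsUniversalCovering a φ → ∀ ξ ∈ ball (0 : ℂ) 1,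
      ContDiffAt ℝ 2 (fun ξ => pot e L R (φ ξ)) ξ ∧
      lap (fun ξ => pot e L R (φ ξ)) ξ ≤ C₂ * Ω.pullback φ ξ ∧
      (φ ξ ∈ e.source ∩ e ⁻¹' {z | ‖L z‖ < R * Real.exp (-(1 / 2))} →
        lap (fun ξ => pot e L R (φ ξ)) ξ ≤ - (c₀ / (1 - ‖ξ‖ ^ 2) ^ 2)) := by
    intro a φ hφ ξ hξ
    have hcont : ContinuousAt φ ξ := MDifferentiableAt.continuousAt (hφ.tangent ξ hξ).1
    have hpb := Ω.pullback_nonneg φ ξ
    have hne : φ ξ ≠ p := by
      intro h
      exact (hφ.tangent ξ hξ).2.1 (by rw [h]; exact hp)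
    by_cases hs : φ ξ ∈ e.source
    swap
    · have h0 := pot_eventually_of_notMem (L := L) (R := R) hR hball hcont hs
      refine ⟨contDiffAt_const.congr_of_eventuallyEq h0, ?_, fun h => absurd h.1 hs⟩
      rw [lap_congr h0, lap_zero]
      exact mul_nonneg hC₂0 hpb
    have hev := pot_eventually_of_mem (L := L) (R := R) hcont hs
    have hφd : ∀ z ∈ ball (0 : ℂ) 1, HolAt (E := E) φ z := fun z hz => (hφ.tangent z hz).1
    have hea : AnalyticAt ℂ (fun w => e (φ w)) ξ := analyticAt_chart he hφd hξ hs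
    have hZa : AnalyticAt ℂ (fun w => L (e (φ w))) ξ :=
      ((L : E →L[ℂ] H).analyticAt _).comp hea
    have hZd : deriv (fun w => L (e (φ w))) ξ = L (velocity e φ ξ) := by
      have h1 := hasDerivAt_chart he (hφd ξ hξ) hs
      have h2 := ((L : E →L[ℂ] H).hasFDerivAt (x := e (φ ξ))).comp_hasDerivAt ξ h1
      exact h2.deriv
    have hZ0 : L (e (φ ξ)) ≠ 0 := by
      intro h
      apply ne_zero_of_ne hpe hep hs hne
      apply L.injective
      rw [h, map_zero]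
    have hcd := contDiffAt_logZ hZa hZ0 contDiff_Fcut (Real.log (R ^ 2))
    have hlap := lap_logZ hZa hZ0 contDiff_Fcut (Real.log (R ^ 2))
    set t := Real.log (‖L (e (φ ξ))‖ ^ 2) - Real.log (R ^ 2) with ht
    set Z' := deriv (fun w => L (e (φ w))) ξ with hZ'
    set x := ‖Z'‖ ^ 2 / ‖L (e (φ ξ))‖ ^ 2 with hx
    set y := ‖inner ℂ (L (e (φ ξ))) Z'‖ ^ 2 / (‖L (e (φ ξ))‖ ^ 2) ^ 2 with hy
    have hZpos : 0 < ‖L (e (φ ξ))‖ ^ 2 := pow_pos (norm_pos_iff.mpr hZ0) 2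
    have hy0 : 0 ≤ y := by positivity
    have hx0 : 0 ≤ x := by positivity
    have hyx : y ≤ x := by
      rw [hx, hy, div_le_div_iff₀ (by positivity) hZpos]
      have h1 : ‖inner ℂ (L (e (φ ξ))) Z'‖ ≤ ‖L (e (φ ξ))‖ * ‖Z'‖ := norm_inner_le_norm _ _
      have h2 : ‖inner ℂ (L (e (φ ξ))) Z'‖ ^ 2 ≤ (‖L (e (φ ξ))‖ * ‖Z'‖) ^ 2 :=
        pow_le_pow_left₀ (norm_nonneg _) h1 2
      rw [mul_pow] at h2
      have h3 := mul_le_mul_of_nonneg_right h2 hZpos.le
      calc _ ≤ _ := h3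
        _ = _ := by ring
    have hpbZ : ‖L (e (φ ξ))‖ ≤ R → m * ‖Z'‖ ^ 2 ≤ Ω.pullback φ ξ := by
      intro h
      rw [hZd, Ω.pullback_eq he (hφd ξ hξ) hs]
      exact hmle _ hs h _
    refine ⟨hcd.congr_of_eventuallyEq hev, ?_, ?_⟩
    · rw [lap_congr hev, hlap]
      rcases lt_or_ge 0 t with h0 | h0
      · rw [deriv_Fcut_of_pos h0, deriv_deriv_Fcut_of_pos h0]
        simp only [zero_mul, add_zero, mul_zero]
        exact mul_nonneg hC₂0 hpb
      rcases lt_or_ge t (-1) with h1 | h1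
      · rw [deriv_Fcut_of_lt h1, deriv_deriv_Fcut_of_lt h1]
        refine (num_far_neg hyx h1).trans ?_
        have h2 : 0 ≤ 4 * x / (2 - t) ^ 2 := by positivity
        have h3 := mul_nonneg hC₂0 hpb
        linarith
      · obtain ⟨h2, h3⟩ := hF t h1
        refine (num_mid h3 h2 hy0 hyx).trans ?_
        have hR2 : 0 < R ^ 2 := pow_pos hR 2
        have h4 : ‖L (e (φ ξ))‖ ≤ R := by
          have h5 : Real.log (‖L (e (φ ξ))‖ ^ 2) ≤ Real.log (R ^ 2) := by linarith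
          rw [Real.log_le_log_iff hZpos hR2] at h5
          exact le_of_sq_le_sq h5 hR.le
        have h5 := hpbZ h4
        have h6 : R ^ 2 * Real.exp (-1) ≤ ‖L (e (φ ξ))‖ ^ 2 := by
          have h7 : Real.log (R ^ 2) - 1 ≤ Real.log (‖L (e (φ ξ))‖ ^ 2) := by linarith
          have h8 := Real.exp_le_exp.mpr h7
          rw [Real.exp_log hZpos, sub_eq_add_neg, Real.exp_add, Real.exp_log hR2] at h8
          exact h8
        have h7 : x ≤ ‖Z'‖ ^ 2 / (R ^ 2 * Real.exp (-1)) := by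
          rw [hx]
          exact div_le_div_of_nonneg_left (by positivity) (by positivity) h6
        have h8 : ‖Z'‖ ^ 2 ≤ Ω.pullback φ ξ / m := by
          rw [le_div_iff₀ hm]; linarith
        have h9 : ‖Z'‖ ^ 2 / (R ^ 2 * Real.exp (-1)) ≤
            (Ω.pullback φ ξ / m) / (R ^ 2 * Real.exp (-1)) :=
          div_le_div_of_nonneg_right h8 (by positivity)
        have h10 : 4 * C₁ * x ≤ 4 * C₁ * ((Ω.pullback φ ξ / m) / (R ^ 2 * Real.exp (-1))) :=
          mul_le_mul_of_nonneg_left (h7.trans h9) (by positivity)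
        refine h10.trans (le_of_eq ?_)
        rw [hC₂, Real.exp_neg]
        field_simp
    · rintro ⟨-, hU⟩
      have hU' : ‖L (e (φ ξ))‖ < R * Real.exp (-(1 / 2)) := hU
      have hR2 : 0 < R ^ 2 := pow_pos hR 2
      have h1 : t < -1 := by
        have h2 : ‖L (e (φ ξ))‖ ^ 2 < (R * Real.exp (-(1 / 2))) ^ 2 :=
          pow_lt_pow_left₀ hU' (norm_nonneg _) (by norm_num)
        have h3 := Real.log_lt_log hZpos h2
        rw [mul_pow, Real.log_mul hR2.ne' (by positivity), Real.log_pow (n := 2)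
          (x := Real.exp (-(1 / 2))), Real.log_exp] at h3
        rw [ht]
        push_cast at h3
        linarith
      rw [lap_congr hev, hlap, deriv_Fcut_of_lt h1, deriv_deriv_Fcut_of_lt h1]
      refine (num_far_neg hyx h1).trans ?_
      rw [neg_le_neg_iff]
      obtain ⟨μ, hμ⟩ : ∃ μ : ℂ, velocity e φ ξ = μ • A (e (φ ξ)) := by
        have h2 := (hφ.tangent ξ hξ).2.2 e he hs
        rw [(hA _ hs hne).2] at h2
        obtain ⟨μ, hμ⟩ := Submodule.mem_span_singleton.mp h2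
        exact ⟨μ, hμ.symm⟩
      have hsp := singular_speed (B := (B : H →L[ℂ] H)) he hpe hep hA hAB hR hball hφ hξ hs hne
        (by linarith) hμ
      have hb := one_sub_normSq_pos hξ
      apply num_far hα0 hα'0 hb h1 hsp
      have h3 : ‖L (e (φ ξ))‖ ≤ α' * ‖B (L (e (φ ξ)))‖ := by
        have h4 : L (e (φ ξ)) = B.symm (B (L (e (φ ξ)))) := (B.symm_apply_apply _).symm
        calc ‖L (e (φ ξ))‖ = ‖(B.symm : H →L[ℂ] H) (B (L (e (φ ξ))))‖ := by
              conv_lhs => rw [h4]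
              rfl
          _ ≤ ‖(B.symm : H →L[ℂ] H)‖ * ‖B (L (e (φ ξ)))‖ := ContinuousLinearMap.le_opNorm _ _
          _ ≤ α' * ‖B (L (e (φ ξ)))‖ := by
              apply mul_le_mul_of_nonneg_right _ (norm_nonneg _)
              rw [hα']; linarith
      have h4 : ‖Z'‖ = ‖μ‖ * ‖B (L (e (φ ξ)))‖ := by
        rw [hZd, hμ, hAB, map_smul, L.apply_symm_apply, norm_smul]
      rw [hx, h4, ← div_pow]
      apply pow_le_pow_left₀ (by positivity)
      rw [div_le_div_iff₀ hα'0 (norm_pos_iff.mpr hZ0)]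
      calc ‖μ‖ * ‖L (e (φ ξ))‖ ≤ ‖μ‖ * (α' * ‖B (L (e (φ ξ)))‖) :=
            mul_le_mul_of_nonneg_left h3 (norm_nonneg _)
        _ = ‖μ‖ * ‖B (L (e (φ ξ)))‖ * α' := by ring
  -- normalisation
  refine ⟨e.source ∩ e ⁻¹' {z | ‖L z‖ < R * Real.exp (-(1 / 2))}, ?_,
    fun y => c₀⁻¹ * pot e L R y, c₀⁻¹ * C₂, mul_nonneg (inv_nonneg.mpr hc₀0.le) hC₂0,
    fun y => mul_nonneg (inv_nonneg.mpr hc₀0.le) (pot_nonneg e L R y), fun a φ hφ => ⟨?_, ?_⟩⟩
  · have hopen : IsOpen {z : E | ‖L z‖ < R * Real.exp (-(1 / 2))} :=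
      isOpen_lt (L.continuous.norm) continuous_const
    refine (e.isOpen_inter_preimage hopen).mem_nhds ⟨hpe, ?_⟩
    show ‖L (e p)‖ < R * Real.exp (-(1 / 2))
    rw [hep, map_zero, norm_zero]
    positivity
  · intro ξ hξ
    exact (contDiffAt_const.mul (main a φ hφ ξ hξ).1).contDiffWithinAt
  · intro ξ hξ
    obtain ⟨h1, h2, h3⟩ := main a φ hφ ξ hξ
    have hb := one_sub_normSq_pos hξ
    have hpb := Ω.pullback_nonneg φ ξ
    rw [lap_const_mul h1]
    have hci : 0 < c₀⁻¹ := inv_pos.mpr hc₀0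
    refine ⟨?_, fun hU => ?_⟩
    · rw [mul_assoc]
      exact mul_le_mul_of_nonneg_left h2 hci.le
    · have h4 := mul_le_mul_of_nonneg_left (h3 hU) hci.le
      have h5 : c₀⁻¹ * -(c₀ / (1 - ‖ξ‖ ^ 2) ^ 2) = - (1 / (1 - ‖ξ‖ ^ 2) ^ 2) := by
        field_simp
      rw [h5] at h4
      have h6 : 0 ≤ c₀⁻¹ * C₂ * Ω.pullback φ ξ := mul_nonneg (mul_nonneg hci.le hC₂0) hpb
      linarith

theorem localEstimate_singular [T2Space M] (F : Foliation E M) (Ω : PositiveForm E M) {p : M}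
    (hp : p ∈ F.sing) (hlin : F.IsLinearizableAt p) : LocalEstimate F Ω p := by
  obtain ⟨e, he, hpe, hep, A, hA⟩ := hlin
  have hE : CompleteSpace E := FiniteDimensional.complete ℂ E
  obtain ⟨L⟩ : Nonempty (E ≃L[ℂ] EuclideanSpace ℂ (Fin (Module.finrank ℂ E))) := by
    apply FiniteDimensional.nonempty_continuousLinearEquiv_of_finrank_eq
    simp
  exact localEstimate_singular_aux F Ω hp he hpe hep hA L
    (L.symm.trans (A.toContinuousLinearEquiv.trans L)) fun z => by simp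

end Pool.Agent.Nevan
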